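import Pool.Agent.R904.Voi.Alt
import Mathlib.LinearAlgebra.Matrix.Determinant.Basic

/-!
# Alternating sums over pairs of positions
-/

namespace Pool.Agent.K4H60.Voi

open Equiv Pool.Agent.R904.Voi

section

variable {n : ℕ}

/-- The pairs of positions. -/
def pe (n : ℕ) : Fin n × Bool ≃ Fin n ⊕ Fin n :=
  (Equiv.prodComm _ _).trans (Equiv.boolProdEquivSum _)

@[simp] lemma pe_false (j : Fin n) : pe n (j, false) = Sum.inl j := rfl
@[simp] lemma pe_true (j : Fin n) : pe n (j, true) = Sum.inr j := rfl
@[simp] lemma pe_symm_inl (j : Fin n) : (pe n).symm (Sum.inl j) = (j, false) := rfl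
@[simp] lemma pe_symm_inr (j : Fin n) : (pe n).symm (Sum.inr j) = (j, true) := rfl

/-- Exchange of the two positions of the pairs `j` with `ε j`. -/
def swp (ε : Fin n → Bool) : Perm (Fin n ⊕ Fin n) :=
  (pe n).permCongr (Equiv.prodCongrRight fun j => if ε j then Equiv.swap false true else 1)

lemma swp_inl (ε : Fin n → Bool) (j : Fin n) :
    swp ε (Sum.inl j) = if ε j then Sum.inr j else Sum.inl j := by
  rw [swp, Equiv.permCongr_apply, pe_symm_inl, Equiv.prodCongrRight_apply]
  split_ifs <;> simp

lemma swp_inr (ε : Fin n → Bool) (j : Fin n) :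
    swp ε (Sum.inr j) = if ε j then Sum.inl j else Sum.inr j := by
  rw [swp, Equiv.permCongr_apply, pe_symm_inr, Equiv.prodCongrRight_apply]
  split_ifs <;> simp

lemma swp_sign (ε : Fin n → Bool) :
    Perm.sign (swp ε) = ∏ j, if ε j then -1 else 1 := by
  rw [swp, Perm.sign_permCongr, Perm.sign_prodCongrRight]
  refine Finset.prod_congr rfl fun j _ => ?_
  split_ifs
  · exact Perm.sign_swap (by decide)
  · exact Perm.sign_one

/-- The permutation of the positions given by a permutation of the pairs and exchanges. -/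
def wp (σ : Perm (Fin n)) (ε : Fin n → Bool) : Perm (Fin n ⊕ Fin n) :=
  Perm.sumCongr σ σ * swp ε

lemma wp_inl (σ : Perm (Fin n)) (ε : Fin n → Bool) (j : Fin n) :
    wp σ ε (Sum.inl j) = if ε j then Sum.inr (σ j) else Sum.inl (σ j) := by
  rw [wp, Perm.mul_apply, swp_inl]
  split_ifs <;> rfl

lemma wp_inr (σ : Perm (Fin n)) (ε : Fin n → Bool) (j : Fin n) :
    wp σ ε (Sum.inr j) = if ε j then Sum.inl (σ j) else Sum.inr (σ j) := by
  rw [wp, Perm.mul_apply, swp_inr]
  split_ifs <;> rfl

lemma wp_sign (σ : Perm (Fin n)) (ε : Fin n → Bool) :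
    Perm.sign (wp σ ε) = ∏ j, if ε j then -1 else 1 := by
  rw [wp, Perm.sign_mul, Perm.sign_sumCongr, Int.units_mul_self, one_mul, swp_sign]

variable {M : Type*} [AddCommGroup M] [Module ℚ M]

/-- A determinant of minors is zero if there are more columns than pairs. -/
lemma det_minors {a : ℕ} (hn : a.choose 2 < n) (c c' : Fin n → Fin a)
    (Y : Fin a → Fin n → ℚ) (Y' : Fin a → Fin n → ℚ) :
    (Matrix.of fun i j : Fin n => Y (c j) i * Y' (c' j) i - Y' (c j) i * Y (c' j) i).det = 0 := by
  classical
  by_cases h0 : ∃ j, c j = c' j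
  · obtain ⟨j, hj⟩ := h0
    refine Matrix.det_eq_zero_of_column_eq_zero j fun i => ?_
    rw [Matrix.of_apply, hj]
    ring
  · push Not at h0
    have hcard : (Finset.powersetCard 2 (Finset.univ : Finset (Fin a))).card <
        (Finset.univ : Finset (Fin n)).card := by
      rw [Finset.card_powersetCard, Finset.card_univ, Fintype.card_fin, Finset.card_univ,
        Fintype.card_fin]
      exact hn
    obtain ⟨j, -, j', -, hne, heq⟩ := Finset.exists_ne_map_eq_of_card_lt_of_maps_to hcard
      (f := fun j => ({c j, c' j} : Finset (Fin a))) (fun j _ => by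
        rw [Finset.mem_coe, Finset.mem_powersetCard]
        exact ⟨Finset.subset_univ _, Finset.card_pair (h0 j)⟩)
    have h1 : (c j = c j' ∧ c' j = c' j') ∨ (c j = c' j' ∧ c' j = c j') := by
      have h2 : c j ∈ ({c j', c' j'} : Finset (Fin a)) := by
        have : c j ∈ ({c j, c' j} : Finset (Fin a)) := by simp
        rwa [heq] at this
      have h3 : c' j ∈ ({c j', c' j'} : Finset (Fin a)) := by
        have : c' j ∈ ({c j, c' j} : Finset (Fin a)) := by simp
        rwa [heq] at this
      rw [Finset.mem_insert, Finset.mem_singleton] at h2 h3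
      have h4 := h0 j
      have h5 := h0 j'
      rcases h2 with h2 | h2 <;> rcases h3 with h3 | h3
      · exact absurd (h2.trans h3.symm) h4
      · exact Or.inl ⟨h2, h3⟩
      · exact Or.inr ⟨h2, h3⟩
      · exact absurd (h2.trans h3.symm) h4
    rcases h1 with ⟨h2, h3⟩ | ⟨h2, h3⟩
    · refine Matrix.det_zero_of_column_eq hne fun i => ?_
      simp only [Matrix.of_apply, h2, h3]
    · -- the two columns are opposite
      have h4 : (Matrix.of fun i j : Fin n =>
          Y (c j) i * Y' (c' j) i - Y' (c j) i * Y (c' j) i).det =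
          -(Matrix.of fun i j : Fin n =>
          Y (c j) i * Y' (c' j) i - Y' (c j) i * Y (c' j) i).det := by
        set D := (Matrix.of fun i j : Fin n =>
          Y (c j) i * Y' (c' j) i - Y' (c j) i * Y (c' j) i) with hD
        have h5 : (D.updateCol j (fun i => -D i j)).det = -D.det := by
          have h6 : (fun i => -D i j) = (-1 : ℚ) • (fun i => D i j) := by
            funext i
            simp
          rw [h6, Matrix.det_updateCol_smul, Matrix.updateCol_eq_self]
          ring
        have h7 : (D.updateCol j (fun i => -D i j)).det = 0 := by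
          refine Matrix.det_zero_of_column_eq hne fun i => ?_
          rw [Matrix.updateCol_self, Matrix.updateCol_ne hne.symm, hD, Matrix.of_apply,
            Matrix.of_apply, h2, h3]
          ring
        have h8 : D.det = 0 := by
          rw [h5] at h7
          linarith
        rw [h8, neg_zero]
      linarith

/-- If the symmetrizations of `z` over more than `a` positions are zero, and `n` is greater than the
number of pairs in a set of `a` elements, then the alternating sum over the pairs is zero. -/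
theorem alt_pair {a : ℕ} (hn : a.choose 2 < n) (z : Perm (Fin n ⊕ Fin n) → M)
    (h : ∀ A : Finset (Fin n ⊕ Fin n), A.card = a + 1 → ∀ π : Perm (Fin n ⊕ Fin n),
      ∑ ρ : Perm A, z (π * Perm.ofSubtype ρ) = 0) :
    ∑ σ : Perm (Fin n), ∑ ε : Fin n → Bool, ((Perm.sign σ : ℤ) : ℚ) • z (wp σ ε) = 0 := by
  classical
  let s : (Fin n → Bool) → ℚ := fun ε => ∏ j, if ε j then -1 else 1
  have hs : ∀ σ ε, ((Perm.sign (wp σ ε) : ℤ) : ℚ) = s ε := by
    intro σ ε
    rw [wp_sign]
    simp only [s]
    push_cast
    refine Finset.prod_congr rfl fun j _ => ?_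
    split_ifs <;> simp
  have hss : ∀ ε, s ε * s ε = 1 := by
    intro ε
    rw [← Finset.prod_mul_distrib]
    refine Finset.prod_eq_one fun j _ => ?_
    split_ifs <;> norm_num
  let F : Perm (Fin n ⊕ Fin n) → ℚ := fun π =>
    ∑ σ : Perm (Fin n), ∑ ε : Fin n → Bool,
      if wp σ ε = π then ((Perm.sign σ : ℤ) : ℚ) * s ε else 0
  have key := alt_sum (κ := Fin n ⊕ Fin n) (Q := Unit) (Γ := Fin a) (M := M)
    (fun _ => ()) (fun _ => ()) F (fun _ _ _ => rfl) ?_ z ?_
  · -- the conclusion
    have e2 : ∀ π : Perm (Fin n ⊕ Fin n), (((Perm.sign π : ℤ) : ℚ) * F π) • z π =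
        ∑ σ : Perm (Fin n), ∑ ε : Fin n → Bool,
          if wp σ ε = π then ((Perm.sign σ : ℤ) : ℚ) • z (wp σ ε) else 0 := by
      intro π
      simp only [F]
      rw [Finset.mul_sum, Finset.sum_smul]
      refine Finset.sum_congr rfl fun σ _ => ?_
      rw [Finset.mul_sum, Finset.sum_smul]
      refine Finset.sum_congr rfl fun ε _ => ?_
      split_ifs with h1
      · subst h1
        rw [hs, mul_left_comm, hss, mul_one]
      · rw [mul_zero, zero_smul]
    rw [Finset.sum_congr rfl fun π _ => e2 π, Finset.sum_comm] at key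
    rw [← key]
    refine Finset.sum_congr rfl fun σ _ => ?_
    rw [Finset.sum_comm]
    refine Finset.sum_congr rfl fun ε _ => ?_
    rw [Finset.sum_ite_eq]
    simp
  · intro c _ Y
    have e1 : ∑ π : Perm (Fin n ⊕ Fin n), F π * ∏ k, Y (c k) (π k) =
        ∑ σ : Perm (Fin n), ∑ ε : Fin n → Bool,
          ((Perm.sign σ : ℤ) : ℚ) * s ε * ∏ k, Y (c k) (wp σ ε k) := by
      have e2 : ∀ π : Perm (Fin n ⊕ Fin n), F π * ∏ k, Y (c k) (π k) =
          ∑ σ : Perm (Fin n), ∑ ε : Fin n → Bool,
          if wp σ ε = π then ((Perm.sign σ : ℤ) : ℚ) * s ε * ∏ k, Y (c k) (wp σ ε k) else 0 := by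
        intro π
        simp only [F]
        rw [Finset.sum_mul]
        refine Finset.sum_congr rfl fun σ _ => ?_
        rw [Finset.sum_mul]
        refine Finset.sum_congr rfl fun ε _ => ?_
        split_ifs with h1
        · subst h1
          rfl
        · rw [zero_mul]
      rw [Finset.sum_congr rfl fun π _ => e2 π, Finset.sum_comm]
      refine Finset.sum_congr rfl fun σ _ => ?_
      rw [Finset.sum_comm]
      refine Finset.sum_congr rfl fun ε _ => ?_
      rw [Finset.sum_ite_eq]
      simp
    rw [e1]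
    have e3 := det_minors hn (fun j => c (Sum.inl j)) (fun j => c (Sum.inr j))
      (fun γ i => Y γ (Sum.inl i)) (fun γ i => Y γ (Sum.inr i))
    rw [Matrix.det_apply] at e3
    rw [← e3]
    refine Finset.sum_congr rfl fun σ _ => ?_
    rw [Units.smul_def, zsmul_eq_mul]
    have e4 : ∀ ε : Fin n → Bool, ((Perm.sign σ : ℤ) : ℚ) * s ε * ∏ k, Y (c k) (wp σ ε k) =
        ((Perm.sign σ : ℤ) : ℚ) * ∏ j, ((if ε j then -1 else 1) *
          (Y (c (Sum.inl j)) (if ε j then Sum.inr (σ j) else Sum.inl (σ j)) *
          Y (c (Sum.inr j)) (if ε j then Sum.inl (σ j) else Sum.inr (σ j)))) := by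
      intro ε
      rw [mul_assoc]
      congr 1
      rw [Fintype.prod_sum_type, ← Finset.prod_mul_distrib, ← Finset.prod_mul_distrib]
      refine Finset.prod_congr rfl fun j _ => ?_
      rw [wp_inl, wp_inr]
    rw [Finset.sum_congr rfl fun ε _ => e4 ε, ← Finset.mul_sum]
    congr 1
    have e5 := Finset.prod_univ_sum (fun _ : Fin n => (Finset.univ : Finset Bool))
      (fun (j : Fin n) (b : Bool) => (if b then -1 else 1) *
          (Y (c (Sum.inl j)) (if b then Sum.inr (σ j) else Sum.inl (σ j)) *
          Y (c (Sum.inr j)) (if b then Sum.inl (σ j) else Sum.inr (σ j))))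
    rw [Fintype.piFinset_univ] at e5
    rw [← e5]
    refine Finset.prod_congr rfl fun j _ => ?_
    rw [Fintype.sum_bool, Matrix.of_apply]
    simp
    ring
  · intro q A hA _ π _
    refine h A ?_ π
    rw [hA]
    congr 1
    have e6 := Fintype.card_congr (Equiv.subtypeUnivEquiv (p := fun _ : Fin a => () = q)
      fun _ => Subsingleton.elim _ _)
    rw [e6, Fintype.card_fin]

end

end Pool.Agent.K4H60.Voi
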