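import Pool.Agent.R904.Voi.Defs
import Mathlib.RingTheory.TensorProduct.Basic

/-!
# Finite groups acting on curves, parts of the motive of a curve: definitions
-/

open CategoryTheory AlgebraicGeometry
open scoped TensorProduct

universe u v w

namespace Pool.Agent.K4H60.Voi

open Pool.Agent.H914 Pool.Agent.H914.VarClass Pool.Agent.H914.VarClass.Obj Pool.Agent.W492.BB
  Pool.Agent.W550.Corr Pool.Agent.TH133 Pool.Agent.Y152.AS

/-- The convolution of functions on the group `G`, that is, the product of the group algebra. -/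
def conv {F : Type w} [Field F] {G : Type} [Group G] [Fintype G] (u v : G → F) : G → F :=
  fun g => ∑ h, u h * v (h⁻¹ * g)

/-- The functions `u φ` on the finite group `G` are idempotents of the group algebra `F[G]` which
are invariant under `g ↦ g⁻¹` and generate the group algebra as a two-sided ideal. -/
structure IsSystem {F : Type w} [Field F] {G : Type} [Group G] [Fintype G] [DecidableEq G]
    {Φ : Type} [Fintype Φ] (u : Φ → G → F) : Prop where
  idem : ∀ φ, conv (u φ) (u φ) = u φ
  symm : ∀ φ g, u φ g⁻¹ = u φ g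
  full : ∃ (m : ℕ) (r s : Φ → Fin m → G → F),
    ∑ φ, ∑ i, conv (conv (r φ i) (u φ)) (s φ i) = fun g => if g = 1 then 1 else 0

variable {k : Type u} [Field k] {𝒱 : VarClass k}

/-- Let the finite group `G` act on the curve `X` by the automorphisms `a g`, let `e` be a class of
degree one on `X` and `u = ∑ u(g) g` an element of the group algebra `K[G]`. This is the value at the
points `x`, `y` of `X` with values in `W` of the self-correspondence `∑ u(g) (id × g)^* π` of `X`
with coefficients in `K`, where `π = [Δ] - e × X - X × e` is the projector defining `h^1(X)`. If `u`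
is idempotent and `e` is invariant, this self-correspondence is the projector defining the part
`h^1(X) u` of the motive `h^1(X)` with coefficients in `K`. -/
noncomputable def partValue (C : TheoryData.{u, v, 0} 𝒱 ℚ) (K : Type) [Field K] [Algebra ℚ K]
    {X W : 𝒱.Obj} {G : Type} [Fintype G] (a : G → (X ⟶ X)) (e : C.A X) (u : G → K)
    (x y : W ⟶ X) : K ⊗[ℚ] C.A W :=
  ∑ g, u g ⊗ₜ[ℚ] C.up (Obj.lift x (y ≫ a g)) (Pool.Agent.R904.Voi.midProj C e)

/-- `X` is a curve on which the finite group `G` acts by the automorphisms `a g`, and `2 γ φ` is the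
rank in the sense of Kimura of the part `h^1(X) u_φ` of `h^1(X)`: the symmetric power
`Sym^(2 γ φ + 1) (h^1(X) u_φ)` is zero. Here `h^1(X) u_φ` is defined by an invariant class `e` of
degree one on `X` and by the element `u_φ` of the group algebra `K[G]`. -/
structure IsCurveWithRanks (C : TheoryData.{u, v, 0} 𝒱 ℚ) (K : Type) [Field K] [Algebra ℚ K]
    (X : 𝒱.Obj) {G : Type} [Group G] [Fintype G] (a : G → (X ⟶ X)) {Φ : Type} (u : Φ → G → K)
    (γ : Φ → ℕ) : Prop where
  dim_eq : X.dim = 1
  act_one : a 1 = 𝟙 X
  act_mul : ∀ g h, a (g * h) = a h ≫ a g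
  rank : ∃ e : C.A X, C.Deg 1 e ∧ HasDegree C e 1 ∧ (∀ g, C.up (a g) e = e) ∧
    ∀ (φ : Φ) (W : 𝒱.Obj) (x y : Fin (2 * γ φ + 1) → (W ⟶ X)),
      ∑ σ : Equiv.Perm (Fin (2 * γ φ + 1)),
        (List.ofFn fun i => partValue C K a e (u φ) (x i) (y (σ i))).prod = 0

/-- The Albanese kernel of `S` comes from the quotients `(X i × Y i) / G i` by the diagonal actions
of the groups `G i`: there are correspondences `b i` on `(X i × Y i) × S` such that every class in
the Albanese kernel of `S` is a sum of images `(b i)_* (β i)` of invariant classes `β i` in the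
Albanese kernels of `X i × Y i`. (For example this holds for one `i` if there is a dominant rational
map `(X × Y) / G ⇢ S`.) -/
def IsCoveredByQuotients (C : TheoryData.{u, v, 0} 𝒱 ℚ) {ι : Type} [Fintype ι] {X Y : ι → 𝒱.Obj}
    {G : ι → Type} (a : ∀ i, G i → (X i ⟶ X i)) (a' : ∀ i, G i → (Y i ⟶ Y i)) (S : 𝒱.Obj) : Prop :=
  ∃ b : ∀ i, C.A (((X i).prod (Y i)).prod S), ∀ α : C.A S, InAlbKer C α →
    ∃ β : ∀ i, C.A ((X i).prod (Y i)), (∀ i, InAlbKer C (β i)) ∧
      (∀ i g, C.up (prodMap (a i g) (a' i g)) (β i) = β i) ∧ α = ∑ i, C.act (b i) (β i)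

/-- The Albanese kernel of `S` comes from the quotients of `X i × X i` by the groups generated by
the diagonal action of `G i` and by `(x, y) ↦ (y, c x)`, where `c = c i ∈ G i`: there are
correspondences `b i` on `(X i × X i) × S` such that every class in the Albanese kernel of `S` is a
sum of images `(b i)_* (β i)` of classes `β i` in the Albanese kernels of `X i × X i` which are
invariant under these groups. (For example, if `G` is trivial this holds for `S = Sym^2 X`.) -/
def IsCoveredBySquares (C : TheoryData.{u, v, 0} 𝒱 ℚ) {ι : Type} [Fintype ι] {X : ι → 𝒱.Obj}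
    {G : ι → Type} (a : ∀ i, G i → (X i ⟶ X i)) (c : ∀ i, G i) (S : 𝒱.Obj) : Prop :=
  ∃ b : ∀ i, C.A (((X i).prod (X i)).prod S), ∀ α : C.A S, InAlbKer C α →
    ∃ β : ∀ i, C.A ((X i).prod (X i)), (∀ i, InAlbKer C (β i)) ∧
      (∀ i g, C.up (prodMap (a i g) (a i g)) (β i) = β i) ∧
      (∀ i, C.up (Obj.lift (snd (X i) (X i)) (fst (X i) (X i) ≫ a i (c i))) (β i) = β i) ∧
      α = ∑ i, C.act (b i) (β i)

/-- The number of unordered pairs of elements of a set of `a` elements: of different elements for
the sign `1`, with equal elements allowed for the sign `-1`. -/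
def pairs (η : ℤˣ) (a : ℕ) : ℕ := if η = 1 then a.choose 2 else (a + 1).choose 2

/-- The alternating sum `∑_σ sign(σ) s_1^* α_(σ 1) ⋯ s_n^* α_(σ n)` in `A(W)` of the classes
`α_1, …, α_n` on `S` at the points `s_1, …, s_n` of `S` with values in `W`. For `W = S^n` and the `n`
projections it is the alternating sum of the exterior products `α_(σ 1) × ⋯ × α_(σ n)`. -/
noncomputable def altSum (C : TheoryData.{u, v, 0} 𝒱 ℚ) {S W : 𝒱.Obj} {n : ℕ} (α : Fin n → C.A S)
    (s : Fin n → (W ⟶ S)) : C.A W :=
  ∑ σ : Equiv.Perm (Fin n), (Equiv.Perm.sign σ : ℤ) •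
    (List.ofFn fun j => C.up (s j) (α (σ j))).prod

/-- The assertion of Voisin's conjecture for `S` and the number `n`: all alternating sums of `n`
classes in the Albanese kernel of `S` vanish, at all `n` points of `S` with values in any `W` (in
particular for `W = S^n` and the projections). -/
def VoisinVanishing (C : TheoryData.{u, v, 0} 𝒱 ℚ) (S : 𝒱.Obj) (n : ℕ) : Prop :=
  ∀ α : Fin n → C.A S, (∀ j, InAlbKer C (α j)) → ∀ (W : 𝒱.Obj) (s : Fin n → (W ⟶ S)),
    altSum C α s = 0

end Pool.Agent.K4H60.Voi
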