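import Pool.Agent.K4H60.Voi.AltP
import Pool.Agent.K4H60.Voi.Def
import Mathlib.Data.Sym.Card

/-!
# Alternating sums over pairs of positions, with signs
-/

namespace Pool.Agent.K4H60.Voi

open Equiv Pool.Agent.R904.Voi

section

variable {n : ℕ} {M : Type*} [AddCommGroup M] [Module ℚ M]

/-- The determinant of permanents of size two is zero if there are more columns than pairs. -/
lemma det_perms {a : ℕ} (hn : (a + 1).choose 2 < n) (c c' : Fin n → Fin a)
    (Y : Fin a → Fin n → ℚ) (Y' : Fin a → Fin n → ℚ) :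
    (Matrix.of fun i j : Fin n => Y (c j) i * Y' (c' j) i + Y' (c j) i * Y (c' j) i).det = 0 := by
  classical
  have hcard : Fintype.card (Sym2 (Fin a)) < Fintype.card (Fin n) := by
    rw [Sym2.card, Fintype.card_fin, Fintype.card_fin]
    exact hn
  obtain ⟨j, j', hne, heq⟩ := Fintype.exists_ne_map_eq_of_card_lt
    (fun j => s(c j, c' j)) hcard
  have heq' : s(c j, c' j) = s(c j', c' j') := heq
  rw [Sym2.eq_iff] at heq'
  refine Matrix.det_zero_of_column_eq hne fun i => ?_
  rw [Matrix.of_apply, Matrix.of_apply]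
  rcases heq' with ⟨h1, h2⟩ | ⟨h1, h2⟩
  · rw [h1, h2]
  · rw [h1, h2]
    ring

/-- The alternating sums over the pairs, with the sign `-τ` for the exchanges. -/
theorem alt_gen {a : ℕ} (τ : ℚ)
    (hdet : ∀ (c c' : Fin n → Fin a) (Y Y' : Fin a → Fin n → ℚ),
      (Matrix.of fun i j : Fin n =>
        Y (c j) i * Y' (c' j) i + τ * (Y' (c j) i * Y (c' j) i)).det = 0)
    (z : Perm (Fin n ⊕ Fin n) → M)
    (h : ∀ A : Finset (Fin n ⊕ Fin n), A.card = a + 1 → ∀ π : Perm (Fin n ⊕ Fin n),
      ∑ ρ : Perm A, z (π * Perm.ofSubtype ρ) = 0) :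
    ∑ σ : Perm (Fin n), ∑ ε : Fin n → Bool,
      (((Perm.sign σ : ℤ) : ℚ) * ∏ j, (if ε j then -τ else 1)) • z (wp σ ε) = 0 := by
  classical
  let s : (Fin n → Bool) → ℚ := fun ε => ∏ j, if ε j then -1 else 1
  let t : (Fin n → Bool) → ℚ := fun ε => ∏ j, if ε j then τ else 1
  have hs : ∀ σ ε, ((Perm.sign (wp σ ε) : ℤ) : ℚ) = s ε := by
    intro σ ε
    rw [wp_sign]
    simp only [s]
    push_cast
    refine Finset.prod_congr rfl fun j _ => ?_
    split_ifs <;> simp
  have hst : ∀ ε, s ε * t ε = ∏ j, (if ε j then -τ else 1) := by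
    intro ε
    simp only [s, t]
    rw [← Finset.prod_mul_distrib]
    refine Finset.prod_congr rfl fun j _ => ?_
    split_ifs <;> ring
  let F : Perm (Fin n ⊕ Fin n) → ℚ := fun π =>
    ∑ σ : Perm (Fin n), ∑ ε : Fin n → Bool,
      if wp σ ε = π then ((Perm.sign σ : ℤ) : ℚ) * t ε else 0
  have key := alt_sum (κ := Fin n ⊕ Fin n) (Q := Unit) (Γ := Fin a) (M := M)
    (fun _ => ()) (fun _ => ()) F (fun _ _ _ => rfl) ?_ z ?_
  · -- the conclusion
    have e2 : ∀ π : Perm (Fin n ⊕ Fin n), (((Perm.sign π : ℤ) : ℚ) * F π) • z π =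
        ∑ σ : Perm (Fin n), ∑ ε : Fin n → Bool,
          if wp σ ε = π then
            (((Perm.sign σ : ℤ) : ℚ) * ∏ j, (if ε j then -τ else 1)) • z (wp σ ε) else 0 := by
      intro π
      simp only [F]
      rw [Finset.mul_sum, Finset.sum_smul]
      refine Finset.sum_congr rfl fun σ _ => ?_
      rw [Finset.mul_sum, Finset.sum_smul]
      refine Finset.sum_congr rfl fun ε _ => ?_
      split_ifs with h1
      · subst h1
        rw [hs, mul_left_comm, hst]
      · rw [mul_zero, zero_smul]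
    rw [Finset.sum_congr rfl fun π _ => e2 π, Finset.sum_comm] at key
    rw [← key]
    refine Finset.sum_congr rfl fun σ _ => ?_
    rw [Finset.sum_comm]
    refine Finset.sum_congr rfl fun ε _ => ?_
    rw [Finset.sum_ite_eq]
    simp
  · intro c _ Y
    have e1 : ∑ π : Perm (Fin n ⊕ Fin n), F π * ∏ k, Y (c k) (π k) =
        ∑ σ : Perm (Fin n), ∑ ε : Fin n → Bool,
          ((Perm.sign σ : ℤ) : ℚ) * t ε * ∏ k, Y (c k) (wp σ ε k) := by
      have e2 : ∀ π : Perm (Fin n ⊕ Fin n), F π * ∏ k, Y (c k) (π k) =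
          ∑ σ : Perm (Fin n), ∑ ε : Fin n → Bool,
          if wp σ ε = π then ((Perm.sign σ : ℤ) : ℚ) * t ε * ∏ k, Y (c k) (wp σ ε k) else 0 := by
        intro π
        simp only [F]
        rw [Finset.sum_mul]
        refine Finset.sum_congr rfl fun σ _ => ?_
        rw [Finset.sum_mul]
        refine Finset.sum_congr rfl fun ε _ => ?_
        split_ifs with h1
        · subst h1
          rfl
        · rw [zero_mul]
      rw [Finset.sum_congr rfl fun π _ => e2 π, Finset.sum_comm]
      refine Finset.sum_congr rfl fun σ _ => ?_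
      rw [Finset.sum_comm]
      refine Finset.sum_congr rfl fun ε _ => ?_
      rw [Finset.sum_ite_eq]
      simp
    rw [e1]
    have e3 := hdet (fun j => c (Sum.inl j)) (fun j => c (Sum.inr j))
      (fun γ i => Y γ (Sum.inl i)) (fun γ i => Y γ (Sum.inr i))
    rw [Matrix.det_apply] at e3
    rw [← e3]
    refine Finset.sum_congr rfl fun σ _ => ?_
    rw [Units.smul_def, zsmul_eq_mul]
    have e4 : ∀ ε : Fin n → Bool, ((Perm.sign σ : ℤ) : ℚ) * t ε * ∏ k, Y (c k) (wp σ ε k) =
        ((Perm.sign σ : ℤ) : ℚ) * ∏ j, ((if ε j then τ else 1) *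
          (Y (c (Sum.inl j)) (if ε j then Sum.inr (σ j) else Sum.inl (σ j)) *
          Y (c (Sum.inr j)) (if ε j then Sum.inl (σ j) else Sum.inr (σ j)))) := by
      intro ε
      rw [mul_assoc]
      congr 1
      rw [Fintype.prod_sum_type, ← Finset.prod_mul_distrib, ← Finset.prod_mul_distrib]
      refine Finset.prod_congr rfl fun j _ => ?_
      rw [wp_inl, wp_inr]
    rw [Finset.sum_congr rfl fun ε _ => e4 ε, ← Finset.mul_sum]
    congr 1
    have e5 := Finset.prod_univ_sum (fun _ : Fin n => (Finset.univ : Finset Bool))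
      (fun (j : Fin n) (b : Bool) => (if b then τ else 1) *
          (Y (c (Sum.inl j)) (if b then Sum.inr (σ j) else Sum.inl (σ j)) *
          Y (c (Sum.inr j)) (if b then Sum.inl (σ j) else Sum.inr (σ j))))
    rw [Fintype.piFinset_univ] at e5
    rw [← e5]
    refine Finset.prod_congr rfl fun j _ => ?_
    rw [Fintype.sum_bool, Matrix.of_apply]
    simp
    ring
  · intro q A hA _ π _
    refine h A ?_ π
    rw [hA]
    congr 1
    have e6 := Fintype.card_congr (Equiv.subtypeUnivEquiv (p := fun _ : Fin a => () = q)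
      fun _ => Subsingleton.elim _ _)
    rw [e6, Fintype.card_fin]

/-- Alternating sums over pairs of positions: both signs. -/
theorem alt_signs {a : ℕ} (η : ℤˣ) (hn : pairs η a < n) (z : Perm (Fin n ⊕ Fin n) → M)
    (h : ∀ A : Finset (Fin n ⊕ Fin n), A.card = a + 1 → ∀ π : Perm (Fin n ⊕ Fin n),
      ∑ ρ : Perm A, z (π * Perm.ofSubtype ρ) = 0) :
    ∑ σ : Perm (Fin n), ∑ ε : Fin n → Bool,
      (((Perm.sign σ : ℤ) : ℚ) * ∏ j, (if ε j then ((η : ℤ) : ℚ) else 1)) • z (wp σ ε) = 0 := by
  rcases Int.units_eq_one_or η with h1 | h1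
  · subst h1
    rw [pairs, if_pos rfl] at hn
    have h2 := alt_gen (-1) (fun c c' Y Y' => by
      have h3 := det_minors hn c c' Y Y'
      rw [← h3]
      congr 1
      funext i j
      rw [Matrix.of_apply, Matrix.of_apply]
      ring) z h
    rw [neg_neg] at h2
    simpa using h2
  · subst h1
    rw [pairs, if_neg (by decide)] at hn
    have h2 := alt_gen 1 (fun c c' Y Y' => by
      have h3 := det_perms hn c c' Y Y'
      rw [← h3]
      congr 1
      funext i j
      rw [Matrix.of_apply, Matrix.of_apply]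
      ring) z h
    simpa using h2

end

end Pool.Agent.K4H60.Voi
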