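import Pool.Agent.K4H60.Voi.PQ
import Mathlib.LinearAlgebra.TensorProduct.Decomposition
import Mathlib.RingTheory.TensorProduct.Free
import Mathlib.RingTheory.Flat.FaithfullyFlat.Basic

/-!
# Extension of scalars of a theory
-/

open CategoryTheory AlgebraicGeometry
open scoped TensorProduct

universe u v w

namespace Pool.Agent.K4H60.Voi

set_option linter.unusedSectionVars false

open Pool.Agent.H914 Pool.Agent.H914.VarClass Pool.Agent.H914.VarClass.Obj Pool.Agent.W492.BB
  Pool.Agent.W550.Corr Pool.Agent.TH133

variable {k : Type u} [Field k] {𝒱 : VarClass k}

/-- The theory `X ↦ K ⊗ A(X)`. -/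
noncomputable def bc (C : TheoryData.{u, v, 0} 𝒱 ℚ) (K : Type) [Field K] [Algebra ℚ K] :
    TheoryData.{u, v, 0} 𝒱 K where
  A X := K ⊗[ℚ] C.A X
  gr X i := (C.gr X i).baseChange K
  pull f := Algebra.TensorProduct.map (AlgHom.id K K) (C.pull f)
  push f := (C.push f).baseChange K

variable (C : TheoryData.{u, v, 0} 𝒱 ℚ) (K : Type) [Field K] [Algebra ℚ K] {X Y Z W : 𝒱.Obj}

/-- The pure tensors. -/
noncomputable def tm (c : K) (a : C.A X) : (bc C K).A X := (c ⊗ₜ a : K ⊗[ℚ] C.A X)

lemma bc_pull_tm (f : X ⟶ Y) (c : K) (a : C.A Y) :
    (bc C K).pull f (tm C K c a) = tm C K c (C.pull f a) := rfl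

lemma bc_push_tm (f : X ⟶ Y) (c : K) (a : C.A X) :
    (bc C K).push f (tm C K c a) = tm C K c (C.push f a) := rfl

lemma bc_mul_tm (c d : K) (a b : C.A X) :
    tm C K c a * tm C K d b = tm C K (c * d) (a * b) := Algebra.TensorProduct.tmul_mul_tmul c d a b

lemma bc_gr_mem {i : ℤ} {a : C.A X} (ha : a ∈ C.gr X i) (c : K) :
    tm C K c a ∈ (bc C K).gr X i :=
  Submodule.tmul_mem_baseChange_of_mem c ha

lemma tm_one : tm C K 1 (1 : C.A X) = 1 := rfl

lemma tm_add (c : K) (a b : C.A X) : tm C K c (a + b) = tm C K c a + tm C K c b :=
  TensorProduct.tmul_add c a b

lemma tm_zero (c : K) : tm C K c (0 : C.A X) = 0 := TensorProduct.tmul_zero _ c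

/-- Induction for elements of a graded piece. -/
lemma bc_gr_induction {i : ℤ} {P : (bc C K).A X → Prop} (h0 : P 0)
    (hadd : ∀ x y, P x → P y → P (x + y))
    (ht : ∀ (c : K) (a : C.A X), a ∈ C.gr X i → P (tm C K c a))
    {x : (bc C K).A X} (hx : x ∈ (bc C K).gr X i) : P x := by
  obtain ⟨z, hz⟩ := (C.gr X i).toBaseChange_surjective K ⟨x, hx⟩
  have hz' : x = ((C.gr X i).toBaseChange K z : K ⊗[ℚ] C.A X) := by rw [hz]
  rw [hz']
  clear hz hz'
  induction z using TensorProduct.induction_on with
  | zero => rw [map_zero]; exact h0
  | tmul c a => exact ht c a a.2
  | add y z h1 h2 =>
    rw [map_add]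
    exact hadd _ _ h1 h2

/-- Induction for elements. -/
lemma bc_induction {P : (bc C K).A X → Prop} (h0 : P 0)
    (hadd : ∀ x y, P x → P y → P (x + y))
    (ht : ∀ (c : K) (a : C.A X), P (tm C K c a)) (x : (bc C K).A X) : P x := by
  change K ⊗[ℚ] C.A X at x
  induction x using TensorProduct.induction_on with
  | zero => exact h0
  | tmul c a => exact ht c a
  | add y z h1 h2 => exact hadd _ _ h1 h2

instance bcCT [hC : IsCT C] : IsCT (bc C K) where
  push_one := by
    intro X Y f g h1 h2
    have h3 : C.push f 1 = 1 := HasIso.push_one f g h1 h2
    change (bc C K).push f 1 = _
    rw [← tm_one, bc_push_tm, h3, tm_one]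
  comm := by
    intro X a b
    induction a using bc_induction with
    | h0 => rw [zero_mul, mul_zero]
    | hadd x y h1 h2 => rw [add_mul, mul_add, h1, h2]
    | ht c a =>
      induction b using bc_induction with
      | h0 => rw [zero_mul, mul_zero]
      | hadd x y h1 h2 => rw [add_mul, mul_add, h1, h2]
      | ht d b =>
        rw [bc_mul_tm, bc_mul_tm, mul_comm c d, hC.comm a b]
  gr_top := by
    intro X i x hx hi
    refine bc_gr_induction C K (P := fun x => x = 0) rfl ?_ ?_ hx
    · rintro x y rfl rfl
      rw [add_zero]
    · intro c a ha
      rw [hC.gr_top X i a ha hi, tm_zero]
  isTheory :=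
    { isGradedRing :=
        { isInternal := by
            intro X
            classical
            let _ : DirectSum.Decomposition (C.gr X) := (C.isInternal X).chooseDecomposition
            exact DirectSum.Decomposition.isInternal (fun i => (C.gr X i).baseChange K)
          gr_neg := by
            intro X i hi
            change (C.gr X i).baseChange K = ⊥
            rw [C.gr_neg X i hi, Submodule.baseChange_bot]
          one_mem := by
            intro X
            exact bc_gr_mem C K (C.one_mem X) 1
          mul_mem := by
            intro X i j a b ha hb
            refine bc_gr_induction C K (P := fun a => (bc C K).Deg (i + j) (a * b)) ?_ ?_ ?_ ha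
            · rw [zero_mul]
              exact Submodule.zero_mem _
            · intro x y hx hy
              rw [add_mul]
              exact Submodule.add_mem _ hx hy
            · intro c a ha
              refine bc_gr_induction C K (P := fun b => (bc C K).Deg (i + j)
                (tm C K c a * b)) ?_ ?_ ?_ hb
              · rw [mul_zero]
                exact Submodule.zero_mem _
              · intro x y hx hy
                rw [mul_add]
                exact Submodule.add_mem _ hx hy
              · intro d b hb
                rw [bc_mul_tm]
                exact bc_gr_mem C K (C.mul_mem ha hb) _ }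
      hasDegrees :=
        { pull_mem := by
            intro X Y f i b hb
            refine bc_gr_induction C K (P := fun b => (bc C K).Deg i ((bc C K).up f b)) ?_ ?_ ?_ hb
            · change (bc C K).pull f 0 ∈ _
              rw [map_zero]
              exact Submodule.zero_mem _
            · intro x y hx hy
              change (bc C K).pull f (x + y) ∈ _
              rw [map_add]
              exact Submodule.add_mem _ hx hy
            · intro c a ha
              exact bc_gr_mem C K (C.pull_mem f ha) c
          push_mem := by
            intro X Y f i b hb
            refine bc_gr_induction C K (P := fun b => (bc C K).Deg (i + 1 * (Y.dim - X.dim))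
              ((bc C K).down f b)) ?_ ?_ ?_ hb
            · change (bc C K).push f 0 ∈ _
              rw [map_zero]
              exact Submodule.zero_mem _
            · intro x y hx hy
              change (bc C K).push f (x + y) ∈ _
              rw [map_add]
              exact Submodule.add_mem _ hx hy
            · intro c a ha
              exact bc_gr_mem C K (C.push_mem f ha) c }
      isFunctor :=
        { pull_id := by
            intro X a
            induction a using bc_induction with
            | h0 => exact map_zero ((bc C K).pull (𝟙 X))
            | hadd x y h1 h2 =>
              exact (map_add ((bc C K).pull (𝟙 X)) x y).trans (congrArg₂ (· + ·) h1 h2)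
            | ht c a =>
              change (bc C K).pull (𝟙 X) (tm C K c a) = _
              rw [bc_pull_tm, C.pull_id]
          pull_comp := by
            intro X Y Z f g a
            induction a using bc_induction with
            | h0 =>
              change (bc C K).pull (f ≫ g) 0 = (bc C K).pull f ((bc C K).pull g 0)
              rw [map_zero, map_zero, map_zero]
            | hadd x y h1 h2 =>
              change (bc C K).pull (f ≫ g) (x + y) = (bc C K).pull f ((bc C K).pull g (x + y))
              rw [map_add, map_add, map_add]
              exact congrArg₂ (· + ·) h1 h2
            | ht c a =>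
              change (bc C K).pull (f ≫ g) (tm C K c a) =
                (bc C K).pull f ((bc C K).pull g (tm C K c a))
              rw [bc_pull_tm, bc_pull_tm, bc_pull_tm, C.pull_comp]
          push_id := by
            intro X a
            induction a using bc_induction with
            | h0 => exact map_zero ((bc C K).push (𝟙 X))
            | hadd x y h1 h2 =>
              exact (map_add ((bc C K).push (𝟙 X)) x y).trans (congrArg₂ (· + ·) h1 h2)
            | ht c a =>
              change (bc C K).push (𝟙 X) (tm C K c a) = _
              rw [bc_push_tm, C.push_id]
          push_comp := by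
            intro X Y Z f g a
            induction a using bc_induction with
            | h0 =>
              change (bc C K).push (f ≫ g) 0 = (bc C K).push g ((bc C K).push f 0)
              rw [map_zero, map_zero, map_zero]
            | hadd x y h1 h2 =>
              change (bc C K).push (f ≫ g) (x + y) = (bc C K).push g ((bc C K).push f (x + y))
              rw [map_add, map_add, map_add]
              exact congrArg₂ (· + ·) h1 h2
            | ht c a =>
              change (bc C K).push (f ≫ g) (tm C K c a) =
                (bc C K).push g ((bc C K).push f (tm C K c a))
              rw [bc_push_tm, bc_push_tm, bc_push_tm, C.push_comp] }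
      hasProjectionFormula :=
        { proj_right := by
            intro X Y f a b
            change (bc C K).push f (a * (bc C K).pull f b) = (bc C K).push f a * b
            induction a using bc_induction with
            | h0 => rw [zero_mul, map_zero, zero_mul]
            | hadd x y h1 h2 => rw [add_mul, map_add, map_add, add_mul, h1, h2]
            | ht c a =>
              induction b using bc_induction with
              | h0 => rw [map_zero, mul_zero, map_zero, mul_zero]
              | hadd x y h1 h2 => rw [map_add, mul_add, map_add, mul_add, h1, h2]
              | ht d b =>
                rw [bc_pull_tm, bc_mul_tm, bc_push_tm, bc_push_tm, bc_mul_tm,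
                  C.proj_right]
          proj_left := by
            intro X Y f a b
            change (bc C K).push f ((bc C K).pull f b * a) = b * (bc C K).push f a
            induction a using bc_induction with
            | h0 => rw [mul_zero, map_zero, mul_zero]
            | hadd x y h1 h2 => rw [mul_add, map_add, map_add, mul_add, h1, h2]
            | ht c a =>
              induction b using bc_induction with
              | h0 => rw [map_zero, zero_mul, map_zero, zero_mul]
              | hadd x y h1 h2 => rw [map_add, add_mul, map_add, add_mul, h1, h2]
              | ht d b =>
                rw [bc_pull_tm, bc_mul_tm, bc_push_tm, bc_push_tm, bc_mul_tm,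
                  C.proj_left] }
      hasBaseChange :=
        { base_fst := by
            intro X Y f Z a
            change (bc C K).pull (fst Y Z) ((bc C K).push f a) =
              (bc C K).push (prodMap f (𝟙 Z)) ((bc C K).pull (fst X Z) a)
            induction a using bc_induction with
            | h0 => rw [map_zero, map_zero, map_zero, map_zero]
            | hadd x y h1 h2 => rw [map_add, map_add, map_add, map_add, h1, h2]
            | ht c a => rw [bc_push_tm, bc_pull_tm, bc_pull_tm, bc_push_tm, C.base_fst]
          base_snd := by
            intro X Y f Z a
            change (bc C K).pull (snd Z Y) ((bc C K).push f a) =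
              (bc C K).push (prodMap (𝟙 Z) f) ((bc C K).pull (snd Z X) a)
            induction a using bc_induction with
            | h0 => rw [map_zero, map_zero, map_zero, map_zero]
            | hadd x y h1 h2 => rw [map_add, map_add, map_add, map_add, h1, h2]
            | ht c a =>
              rw [bc_push_tm, bc_pull_tm, bc_pull_tm, bc_push_tm, C.base_snd] } }

end Pool.Agent.K4H60.Voi
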