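import Pool.Agent.R904.Voi.Main

/-!
# Commutative theories with arbitrary coefficients

The calculus of `Pool.Agent.R904.Voi` (values of correspondences at points, integration over powers)
for commutative theories over an arbitrary field of characteristic zero.
-/

open CategoryTheory AlgebraicGeometry

universe u v w

namespace Pool.Agent.K4H60.Voi

open Pool.Agent.H914 Pool.Agent.H914.VarClass Pool.Agent.H914.VarClass.Obj Pool.Agent.W492.BB
  Pool.Agent.W550.Corr Pool.Agent.TH133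

variable {k : Type u} [Field k] {𝒱 : VarClass k}

/-- Commutative theories with vanishing above the dimension, with coefficients in `F`. -/
class IsCT {F : Type w} [Field F] (C : TheoryData.{u, v, w} 𝒱 F) : Prop extends HasIso C where
  isTheory : IsTheory C 1
  comm : ∀ {X : 𝒱.Obj} (a b : C.A X), a * b = b * a
  gr_top : ∀ (X : 𝒱.Obj) (i : ℤ) (x : C.A X), C.Deg i x → (X.dim : ℤ) < i → x = 0

instance ctTheory {F : Type w} [Field F] (C : TheoryData.{u, v, w} 𝒱 F) [h : IsCT C] :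
    IsTheory C 1 := h.isTheory

instance ctOfChow (C : TheoryData.{u, v, 0} 𝒱 ℚ) [h : IsChowProj C] : IsCT C where
  isTheory := h.isTheory
  comm := ch_comm C
  gr_top := h.gr_top

/-- The rings `A(W)` are commutative. -/
noncomputable abbrev ctCommRing {F : Type w} [Field F] (C : TheoryData.{u, v, w} 𝒱 F) [IsCT C]
    (W : 𝒱.Obj) : CommRing (C.A W) :=
  { (inferInstance : Ring (C.A W)) with mul_comm := IsCT.comm }

attribute [local instance] ctCommRing

variable {F : Type w} [Field F] {C : TheoryData.{u, v, w} 𝒱 F} [hC : IsCT C]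
  {X Y Z W V T : 𝒱.Obj}

include hC

/-- Base change along arbitrary morphisms for the projections. -/
lemma base_pull (f : W ⟶ Y) (w : C.A (Y.prod Z)) :
    C.pull f (C.push (fst Y Z) w) = C.push (fst W Z) (C.pull (prodMap f (𝟙 Z)) w) := by
  have h0 : ∀ z : C.A Y, C.pull f z = C.push (fst W Y) (C.push (Obj.lift (𝟙 W) f) 1 *
      C.pull (snd W Y) z) := by
    intro z
    rw [← C.proj_right, ← C.push_comp, ← C.pull_comp, lift_fst, lift_snd, one_mul, C.push_id]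
  have e1 : prodMap (𝟙 W) (fst Y Z) = aJ W Y Z ≫ fst (W.prod Y) Z := by
    apply prod_ext <;> simp [aJ, comp_lift]
  have h1 : C.pull (prodMap (𝟙 W) (fst Y Z)) (C.push (Obj.lift (𝟙 W) f) 1) =
      C.push (prodMap (Obj.lift (𝟙 W) f) (𝟙 Z) ≫ aI W Y Z) 1 := by
    rw [e1, C.pull_comp, C.base_fst, map_one, pull_iso C (aJ W Y Z) (aI W Y Z) aJ_aI aI_aJ,
      ← C.push_comp]
  have e2 : prodMap (𝟙 W) (fst Y Z) ≫ fst W Y = fst W (Y.prod Z) := by simp
  have e3 : (prodMap (Obj.lift (𝟙 W) f) (𝟙 Z) ≫ aI W Y Z) ≫ fst W (Y.prod Z) = fst W Z := by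
    simp [aI]
  have e4 : (prodMap (Obj.lift (𝟙 W) f) (𝟙 Z) ≫ aI W Y Z) ≫ snd W (Y.prod Z) =
      prodMap f (𝟙 Z) := by
    apply prod_ext <;> simp [aI]
  rw [h0, C.base_snd, ← C.proj_left, ← C.push_comp, e2, h1, ← C.proj_right, ← C.push_comp,
    ← C.pull_comp, e3, e4, one_mul]

lemma comp_mem {e e' : ℤ} {Γ : C.A (X.prod Y)} {Δ : C.A (Y.prod Z)}
    (hΓ : Γ ∈ C.gr (X.prod Y) (X.dim + e)) (hΔ : Δ ∈ C.gr (Y.prod Z) (Y.dim + e')) :
    C.comp Γ Δ ∈ C.gr (X.prod Z) (X.dim + (e + e')) := by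
  have h := C.push_mem (t13 X Y Z) (C.mul_mem (C.pull_mem (t23 X Y Z) hΔ)
    (C.pull_mem (fst (X.prod Y) Z) hΓ))
  have e1 : (Y.dim : ℤ) + e' + ((X.dim : ℤ) + e) +
      1 * (((X.prod Z).dim : ℤ) - (((X.prod Y).prod Z).dim : ℤ)) = X.dim + (e + e') := by
    rw [dim_prod, dim_prod, dim_prod]; push_cast; ring
  rwa [e1] at h

lemma tp_mem {e : ℤ} {Γ : C.A (X.prod Y)} (hΓ : Γ ∈ C.gr (X.prod Y) e) :
    tp C Γ ∈ C.gr (Y.prod X) e := C.pull_mem _ hΓ

/-- The value of the class `p` on `X × Y` at the points `x`, `y`. -/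
noncomputable def vl {F : Type w} [Field F] (C : TheoryData.{u, v, w} 𝒱 F) {X Y W : 𝒱.Obj}
    (p : C.A (X.prod Y)) (x : W ⟶ X) (y : W ⟶ Y) : C.A W := C.pull (Obj.lift x y) p

lemma pull_vl (g : V ⟶ W) (p : C.A (X.prod Y)) (x : W ⟶ X) (y : W ⟶ Y) :
    C.pull g (vl C p x y) = vl C p (g ≫ x) (g ≫ y) := by
  rw [vl, vl, ← C.pull_comp, comp_lift]

lemma vl_univ (p : C.A (X.prod Y)) : vl C p (fst X Y) (snd X Y) = p := by
  rw [vl, lift_eta, C.pull_id]

lemma vl_mem {p : C.A (X.prod Y)} {i : ℤ} (hp : p ∈ C.gr (X.prod Y) i) (x : W ⟶ X) (y : W ⟶ Y) :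
    vl C p x y ∈ C.gr W i := C.pull_mem _ hp

lemma vl_add (p q : C.A (X.prod Y)) (x : W ⟶ X) (y : W ⟶ Y) :
    vl C (p + q) x y = vl C p x y + vl C q x y := map_add _ _ _

lemma vl_sub (p q : C.A (X.prod Y)) (x : W ⟶ X) (y : W ⟶ Y) :
    vl C (p - q) x y = vl C p x y - vl C q x y := map_sub _ _ _

lemma vl_smul (r : F) (p : C.A (X.prod Y)) (x : W ⟶ X) (y : W ⟶ Y) :
    vl C (r • p) x y = r • vl C p x y := map_smul _ _ _

lemma vl_sum {ι : Type*} (s : Finset ι) (p : ι → C.A (X.prod Y)) (x : W ⟶ X) (y : W ⟶ Y) :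
    vl C (∑ i ∈ s, p i) x y = ∑ i ∈ s, vl C (p i) x y := map_sum _ _ _

lemma vl_pull (f : X ⟶ Z) (g : Y ⟶ T) (p : C.A (Z.prod T)) (x : W ⟶ X) (y : W ⟶ Y) :
    vl C (C.pull (prodMap f g) p) x y = vl C p (x ≫ f) (y ≫ g) := by
  rw [vl, vl, ← C.pull_comp]
  congr 1
  congr 1
  apply prod_ext <;> simp

lemma vl_fst (a : C.A X) (x : W ⟶ X) (y : W ⟶ Y) :
    vl C (C.pull (fst X Y) a) x y = C.pull x a := by
  rw [vl, ← C.pull_comp, lift_fst]

lemma vl_snd (a : C.A Y) (x : W ⟶ X) (y : W ⟶ Y) :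
    vl C (C.pull (snd X Y) a) x y = C.pull y a := by
  rw [vl, ← C.pull_comp, lift_snd]

lemma vl_tp (p : C.A (X.prod Y)) (x : W ⟶ X) (y : W ⟶ Y) :
    vl C (tp C p) y x = vl C p x y := by
  rw [vl, vl, tp, ← C.pull_comp]
  congr 1
  congr 1
  apply prod_ext <;> simp [sw]

lemma ext_vl {p q : C.A (X.prod Y)} (h : ∀ (W : 𝒱.Obj) (x : W ⟶ X) (y : W ⟶ Y),
    vl C p x y = vl C q x y) : p = q := by
  have := h _ (fst X Y) (snd X Y)
  rwa [vl_univ, vl_univ] at this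

/-- The value of a composition. -/
lemma vl_comp (a : C.A (X.prod Y)) (b : C.A (Y.prod Z)) (x : W ⟶ X) (z : W ⟶ Z) :
    vl C (C.comp a b) x z = C.push (fst W Y) (vl C a (fst W Y ≫ x) (snd W Y) *
      vl C b (snd W Y) (fst W Y ≫ z)) := by
  have e1 : t13 X Y Z = Pool.Agent.R904.Voi.rh X Y Z ≫ fst (X.prod Z) Y := by
    apply prod_ext <;> simp [Pool.Agent.R904.Voi.rh, t13, comp_lift]
  have e2 : (prodMap (Obj.lift x z) (𝟙 Y) ≫ Pool.Agent.R904.Voi.rh X Z Y) ≫ t23 X Y Z =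
      Obj.lift (snd W Y) (fst W Y ≫ z) := by
    apply prod_ext <;> simp [Pool.Agent.R904.Voi.rh, t23, comp_lift]
  have e3 : (prodMap (Obj.lift x z) (𝟙 Y) ≫ Pool.Agent.R904.Voi.rh X Z Y) ≫ fst (X.prod Y) Z =
      Obj.lift (fst W Y ≫ x) (snd W Y) := by
    apply prod_ext <;> simp [Pool.Agent.R904.Voi.rh, comp_lift]
  rw [vl, TheoryData.comp, e1, C.push_comp, ← pull_iso C (Pool.Agent.R904.Voi.rh X Z Y)
    (Pool.Agent.R904.Voi.rh X Y Z) (Pool.Agent.R904.Voi.rh_rh X Z Y)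
    (Pool.Agent.R904.Voi.rh_rh X Y Z), base_pull, ← C.pull_comp, map_mul, ← C.pull_comp,
    ← C.pull_comp, e2, e3, hC.comm]
  rfl

/-- The value of the image of a class. -/
lemma pull_act (b : C.A (X.prod Y)) (a : C.A X) (y : W ⟶ Y) :
    C.pull y (C.act b a) = C.push (fst W X) (vl C b (snd W X) (fst W X ≫ y) *
      C.pull (snd W X) a) := by
  have e1 : snd X Y = sw X Y ≫ fst Y X := by simp [sw]
  have e2 : (prodMap y (𝟙 X) ≫ sw Y X) = Obj.lift (snd W X) (fst W X ≫ y) := by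
    apply prod_ext <;> simp [sw]
  have e3 : (prodMap y (𝟙 X) ≫ sw Y X) ≫ fst X Y = snd W X := by
    simp [sw]
  have h0 : C.act b a = C.push (snd X Y) (b * C.pull (fst X Y) a) := by
    rw [TheoryData.act_apply]
  rw [h0, e1, C.push_comp, ← pull_iso C (sw Y X) (sw X Y) sw_sw sw_sw, base_pull, ← C.pull_comp,
    map_mul, ← C.pull_comp, e3, e2]
  rfl

variable (C) in
/-- Fubini: integration of a product over `T^n`. -/
lemma exists_fub (W T : 𝒱.Obj) (n : ℕ) :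
    ∃ (P : 𝒱.Obj) (f : P ⟶ W) (t : Fin n → (P ⟶ T)), ∀ h : Fin n → C.A (W.prod T),
      C.push f (∏ i, vl C (h i) f (t i)) = ∏ i, C.push (fst W T) (h i) := by
  induction n with
  | zero =>
    refine ⟨W, 𝟙 W, fun i => i.elim0, fun h => ?_⟩
    simp [C.push_id]
  | succ n ih =>
    obtain ⟨P, f, t, hP⟩ := ih
    refine ⟨P.prod T, fst P T ≫ f, Fin.cons (snd P T) (fun i => fst P T ≫ t i), fun h => ?_⟩
    rw [Fin.prod_univ_succ, Fin.prod_univ_succ, Fin.cons_zero, C.push_comp]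
    have h1 : ∏ i : Fin n, vl C (h i.succ) (fst P T ≫ f)
        ((Fin.cons (snd P T) (fun i => fst P T ≫ t i) : Fin (n + 1) → (P.prod T ⟶ T)) i.succ) =
        C.pull (fst P T) (∏ i : Fin n, vl C (h i.succ) f (t i)) := by
      rw [map_prod]
      refine Finset.prod_congr rfl fun i _ => ?_
      rw [Fin.cons_succ, pull_vl]
    have h2 : vl C (h 0) (fst P T ≫ f) (snd P T) = C.pull (prodMap f (𝟙 T)) (h 0) := by
      have e : Obj.lift (fst P T ≫ f) (snd P T) = prodMap f (𝟙 T) := by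
        apply prod_ext <;> simp
      rw [vl, e]
    rw [h1, C.proj_right, h2, ← base_pull, C.proj_left, hP]

end Pool.Agent.K4H60.Voi
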