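import Pool.Agent.K4H60.Voi.Rel

/-!
# Determinants of zero-cycles on products: several types
-/

open CategoryTheory AlgebraicGeometry

universe u v w

namespace Pool.Agent.K4H60.Voi

open Pool.Agent.H914 Pool.Agent.H914.VarClass Pool.Agent.H914.VarClass.Obj Pool.Agent.W492.BB
  Pool.Agent.W550.Corr Pool.Agent.TH133

open Pool.Agent.R904.Voi (alt_two alt_sum det_of_types det_of_minors)

/-- A determinant whose rows are combinations of rows of vanishing determinants is zero. -/
lemma det_rows {R : Type*} [CommRing R] {m : Type*} [Fintype m] [DecidableEq m] {κ : Type*}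
    [Fintype κ] (c : κ → R) (N : m → κ → m → R)
    (h : ∀ s : m → κ, (Matrix.of fun i j => N i (s i) j).det = 0) :
    (Matrix.of fun i j => ∑ s : κ, c s * N i s j).det = 0 := by
  classical
  have h1 : (Matrix.of fun i j => ∑ s : κ, c s * N i s j) = fun i => ∑ s : κ, c s • N i s := by
    funext i j
    simp [Finset.sum_apply]
  rw [h1]
  have h2 := (Matrix.detRowAlternating (n := m) (R := R)).toMultilinearMap.map_sum
    (fun i (s : κ) => c s • N i s)
  have h3 : (Matrix.detRowAlternating (n := m) (R := R)).toMultilinearMap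
      (fun i => ∑ s : κ, c s • N i s) = 0 := by
    rw [h2]
    refine Finset.sum_eq_zero fun s _ => ?_
    rw [MultilinearMap.map_smul_univ]
    have h4 : (Matrix.detRowAlternating (n := m) (R := R)).toMultilinearMap
        (fun i => N i (s i)) = 0 := h s
    rw [h4, smul_zero]
  exact h3

variable {k : Type u} [Field k] {𝒱 : VarClass k}

variable {F : Type w} [Field F] {C : TheoryData.{u, v, w} 𝒱 F} [hC : IsCT C]
  {X Y Z W V T : 𝒱.Obj}

attribute [local instance] ctCommRing

include hC

/-- The determinant of zero-cycles on `X × Y` which come from the product of two motives with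
vanishing permanents of the sizes `2 a + 2` and `2 b + 2` is zero, if its size is greater than
`a b`. -/
theorem det_zero [CharZero F] {n a b : ℕ} (hab : a * b < n) {p : C.A (X.prod X)} (hp : OddSym p a)
    {q : C.A (Y.prod Y)} (hq : OddSym q b) {α : Fin n → C.A (X.prod Y)}
    (hα : ∀ j, α j ∈ C.gr (X.prod Y) ((X.dim : ℤ) + Y.dim))
    (hfix : ∀ j, C.comp p (α j) = α j) (hfix' : ∀ j, C.comp (α j) q = α j)
    (x : Fin n → (W ⟶ X)) (y : Fin n → (W ⟶ Y)) :
    (Matrix.of fun i j => vl C (α j) (x i) (y i)).det = 0 := by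
  classical
  let _ : Module ℚ (C.A W) := Module.compHom (C.A W) (algebraMap ℚ F)
  have h1 := alt_two hab (M := C.A W) (fun σ τ => ∏ j, vl C (α j) (x (σ j)) (y (τ j))) ?_ ?_
  · rw [Matrix.det_apply, ← h1]
    refine Finset.sum_congr rfl fun σ _ => ?_
    rw [Units.smul_def, Int.cast_smul_eq_zsmul]
    rfl
  · intro A hA σ τ
    exact rel_sub hp hα hfix (fun j => x (σ j)) (fun j => y (τ j)) A hA
  · intro A hA σ τ
    have h2 := rel_sub hq (α := fun j => tp C (α j)) (fun j => by
      have h3 := tp_mem (hα j)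
      rwa [add_comm] at h3) (fun j => by
      rw [← hq.symm, ← tp_comp C hC.comm, hfix']) (fun j => y (τ j)) (fun j => x (σ j)) A hA
    refine Eq.trans (Finset.sum_congr rfl fun ρ _ => Finset.prod_congr rfl fun j _ => ?_) h2
    rw [vl_tp]
    rfl

/-- The determinant of classes on `X × Y` which are sums of translates of classes of several
types. -/
theorem det_types [CharZero F] {n : ℕ} {Φ : Type*} [Fintype Φ] [DecidableEq Φ] (γ γ' : Φ → ℕ)
    (hn : ∑ φ, γ φ * γ' φ < n) {p : Φ → C.A (X.prod X)} (hp : ∀ φ, OddSym (p φ) (γ φ))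
    {q : Φ → C.A (Y.prod Y)} (hq : ∀ φ, OddSym (q φ) (γ' φ)) {β : Φ → Fin n → C.A (X.prod Y)}
    (hβ : ∀ φ j, β φ j ∈ C.gr (X.prod Y) ((X.dim : ℤ) + Y.dim))
    (hp' : ∀ φ j, C.comp (p φ) (β φ j) = β φ j) (hq' : ∀ φ j, C.comp (β φ j) (q φ) = β φ j)
    {κ : Type*} [Fintype κ] (c : Φ → κ → C.A W) (x : Φ → κ → Fin n → (W ⟶ X))
    (y : Φ → κ → Fin n → (W ⟶ Y)) :
    (Matrix.of fun i j => ∑ φ, ∑ s, c φ s * vl C (β φ j) (x φ s i) (y φ s i)).det = 0 := by
  classical
  let _ : Algebra ℚ (C.A W) := RingHom.toAlgebra ((algebraMap F (C.A W)).comp (algebraMap ℚ F))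
  refine det_of_types (fun φ => γ φ * γ' φ) hn (fun φ => Matrix.of fun i j =>
    ∑ s, c φ s * vl C (β φ j) (x φ s i) (y φ s i)) fun φ J hJ r => ?_
  let e : J ≃ Fin J.card := J.equivFin
  rw [← Matrix.det_reindex_self e]
  have h2 := det_rows (c φ) (fun (i : Fin J.card) (s : κ) (j : Fin J.card) =>
    vl C (β φ (e.symm j)) (x φ s (r (e.symm i))) (y φ s (r (e.symm i)))) (fun s => by
      exact det_zero (W := W) hJ (hp φ) (hq φ) (α := fun j : Fin J.card => β φ (e.symm j))
        (fun j => hβ φ _) (fun j => hp' φ _) (fun j => hq' φ _)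
        (fun i => x φ (s i) (r (e.symm i))) (fun i => y φ (s i) (r (e.symm i))))
  exact h2

end Pool.Agent.K4H60.Voi
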