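import Pool.Agent.K4H60.Voi.BC

/-!
# Voisin's conjecture for surfaces dominated by product-quotients
-/

open CategoryTheory AlgebraicGeometry
open scoped TensorProduct

universe u v w

namespace Pool.Agent.K4H60.Voi

set_option linter.unusedSectionVars false

open Pool.Agent.H914 Pool.Agent.H914.VarClass Pool.Agent.H914.VarClass.Obj Pool.Agent.W492.BB
  Pool.Agent.W550.Corr Pool.Agent.TH133 Pool.Agent.Y152.AS

open Pool.Agent.R904.Voi (det_of_types)

variable {k : Type u} [Field k] {𝒱 : VarClass k}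

attribute [local instance] ctCommRing

section generic

variable {F : Type w} [Field F] {C : TheoryData.{u, v, w} 𝒱 F} [hC : IsCT C]
  {X Y Z W V T S : 𝒱.Obj}

include hC

/-- The vanishing of determinants is preserved by correspondences. -/
theorem det_trans {n : ℕ} (b : C.A (T.prod S)) (β : Fin n → C.A T)
    (h : ∀ (W : 𝒱.Obj) (t : Fin n → (W ⟶ T)),
      (Matrix.of fun i j => C.pull (t i) (β j)).det = 0) (s : Fin n → (W ⟶ S)) :
    (Matrix.of fun i j => C.pull (s i) (C.act b (β j))).det = 0 := by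
  obtain ⟨P, f, t, hP⟩ := exists_fub C W T n
  rw [← Matrix.det_transpose, Matrix.det_apply']
  have h1 : ∀ σ : Equiv.Perm (Fin n), ∏ i, (Matrix.of fun i j =>
      C.pull (s i) (C.act b (β j))).transpose (σ i) i =
      C.push f ((∏ i, vl C b (t i) (f ≫ s i)) * ∏ i, C.pull (t i) (β (σ i))) := by
    intro σ
    have h2 : ∀ i, vl C b (t i) (f ≫ s i) * C.pull (t i) (β (σ i)) =
        vl C (vl C b (snd W T) (fst W T ≫ s i) * C.pull (snd W T) (β (σ i))) f (t i) := by
      intro i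
      conv_rhs => rw [vl, map_mul, pull_vl, lift_snd, ← Category.assoc, lift_fst, ← C.pull_comp,
        lift_snd]
    rw [← Finset.prod_mul_distrib, Finset.prod_congr rfl fun i _ => h2 i, hP]
    refine Finset.prod_congr rfl fun i _ => ?_
    rw [← pull_act]
    rfl
  have h3 : ∀ σ : Equiv.Perm (Fin n), ((Equiv.Perm.sign σ : ℤ) : C.A W) *
      ∏ i, (Matrix.of fun i j => C.pull (s i) (C.act b (β j))).transpose (σ i) i =
      C.push f ((∏ i, vl C b (t i) (f ≫ s i)) * (((Equiv.Perm.sign σ : ℤ) : C.A P) *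
        ∏ i, C.pull (t i) (β (σ i)))) := by
    intro σ
    rw [h1]
    rcases Int.units_eq_one_or (Equiv.Perm.sign σ) with h4 | h4 <;> rw [h4] <;> simp
  rw [Finset.sum_congr rfl fun σ _ => h3 σ, ← map_sum, ← Finset.mul_sum]
  have h5 := h P t
  rw [← Matrix.det_transpose, Matrix.det_apply'] at h5
  have h6 : ∑ σ : Equiv.Perm (Fin n), ((Equiv.Perm.sign σ : ℤ) : C.A P) *
      ∏ i, C.pull (t i) (β (σ i)) = 0 := h5
  rw [h6, mul_zero, map_zero]

/-- Vanishing of determinants for sums of images of classes on several varieties. -/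
theorem det_family [CharZero F] {ι : Type} [Fintype ι] (T : ι → 𝒱.Obj) (g : ι → ℕ) {n : ℕ}
    (hn : ∑ i, g i < n) (b : ∀ i, C.A ((T i).prod S)) (β : ∀ i, Fin n → C.A (T i))
    (h : ∀ i (m : ℕ) (j : Fin m → Fin n), g i < m → ∀ (W : 𝒱.Obj) (t : Fin m → (W ⟶ T i)),
      (Matrix.of fun r c => C.pull (t r) (β i (j c))).det = 0) (s : Fin n → (W ⟶ S)) :
    (Matrix.of fun r c => C.pull (s r) (∑ i, C.act (b i) (β i c))).det = 0 := by
  classical
  let _ : Algebra ℚ (C.A W) := RingHom.toAlgebra ((algebraMap F (C.A W)).comp (algebraMap ℚ F))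
  have h1 : (Matrix.of fun r c => C.pull (s r) (∑ i, C.act (b i) (β i c))) =
      Matrix.of fun r c => ∑ i, (fun i => Matrix.of fun r c =>
        C.pull (s r) (C.act (b i) (β i c)) : ι → Matrix (Fin n) (Fin n) (C.A W)) i r c := by
    funext r c
    simp only [Matrix.of_apply]
    rw [map_sum]
  rw [h1]
  refine det_of_types g hn _ fun i J hJ r => ?_
  let e : J ≃ Fin J.card := J.equivFin
  rw [← Matrix.det_reindex_self e]
  exact det_trans (b i) (fun c : Fin J.card => β i (e.symm c))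
    (fun W t => h i J.card (fun c => e.symm c) hJ W t) (fun c => s (r (e.symm c)))

end generic

section transfer

variable {C : TheoryData.{u, v, 0} 𝒱 ℚ} [hC : IsChowProj C] (K : Type) [Field K] [Algebra ℚ K]
  {X Y Z W V T S : 𝒱.Obj}

lemma bc_comp (a : C.A (X.prod Y)) (b : C.A (Y.prod Z)) :
    (bc C K).comp (tm C K 1 a) (tm C K 1 b) = tm C K 1 (C.comp a b) := by
  rw [TheoryData.comp, bc_pull_tm, bc_pull_tm, bc_mul_tm, bc_push_tm, one_mul]
  rfl

lemma tm_sub (c : K) (a b : C.A X) : tm C K c (a - b) = tm C K c a - tm C K c b :=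
  TensorProduct.tmul_sub c a b

lemma bc_mid (e : C.A X) : mid (bc C K) (tm C K 1 e) = tm C K 1 (mid C e) := by
  rw [mid, mid, tm_sub, tm_sub, bc_pull_tm, bc_pull_tm]
  congr 2

lemma tm_inj {a b : C.A X} (h : tm C K 1 a = tm C K 1 b) : a = b :=
  Algebra.TensorProduct.includeRight_injective (algebraMap ℚ K).injective h

include hC

lemma bc_degOne {e : C.A X} (he : HasDegree C e 1) : DegOne (bc C K) (tm C K 1 e) := by
  intro Y
  rw [bc_pull_tm, bc_pull_tm, bc_push_tm, bc_push_tm, (he Y).1, (he Y).2, one_smul, tm_one]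
  exact ⟨rfl, rfl⟩

lemma albKer_fst {S Y : 𝒱.Obj} (hY : Y.dim = 1) {β : C.A (S.prod Y)} (hβ : InAlbKer C β) :
    C.push (snd S Y) β = 0 := by
  rw [← C.act_graph]
  refine hβ.act_eq_zero Y _ ?_
  have := Pool.Agent.R904.Voi.graph_deg (C := C) (snd S Y)
  rwa [hY] at this

lemma albKer_snd {S Y : 𝒱.Obj} (hY : S.dim = 1) {β : C.A (S.prod Y)} (hβ : InAlbKer C β) :
    C.push (fst S Y) β = 0 := by
  rw [← C.act_graph]
  refine hβ.act_eq_zero S _ ?_
  have := Pool.Agent.R904.Voi.graph_deg (C := C) (fst S Y)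
  rwa [hY] at this

/-- Both projectors act as the identity on the Albanese kernel of a product of two curves. -/
lemma albKer_fix {e : C.A X} {e' : C.A Y} (hd : X.dim = 1) (hd' : Y.dim = 1) (he : C.Deg 1 e)
    (he' : C.Deg 1 e') {β : C.A (X.prod Y)} (hβ : InAlbKer C β) :
    C.comp (mid C e) β = β ∧ C.comp β (mid C e') = β := by
  have hdeg : C.Deg 2 β := by
    have h1 := hβ.deg
    have h2 : (((X.prod Y).dim : ℕ) : ℤ) = 2 := by rw [dim_prod, hd, hd']; norm_num
    rwa [h2] at h1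
  refine ⟨mid_fix hd hd' he hdeg (albKer_fst hd' hβ), ?_⟩
  have h2 : C.push (snd Y X) (tp C β) = 0 := by
    rw [tp, pull_iso C (sw Y X) (sw X Y) sw_sw sw_sw, ← C.push_comp]
    have : sw X Y ≫ snd Y X = fst X Y := by simp [sw]
    rw [this, albKer_snd hd hβ]
  have h3 := mid_fix hd' hd he' (tp_mem hdeg) h2
  have h4 := congrArg (tp C) h3
  rwa [tp_comp C (ch_comm C), tp_tp, mid_symm] at h4

variable {G : Type} [Group G] [Fintype G] [DecidableEq G] {a : G → (X ⟶ X)} {e : C.A X}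
  {a' : G → (Y ⟶ Y)} {e' : C.A Y} {Φ : Type} [Fintype Φ] [DecidableEq Φ]

/-- Determinants of invariant classes in the Albanese kernel of `X × Y`. -/
theorem pq_chow {u : Φ → G → K} (hu : IsSystem u)
    (hd : X.dim = 1) (hed : C.Deg 1 e) (he1 : HasDegree C e 1) (ha : IsAct a)
    (he : ∀ g, C.pull (a g) e = e) (hd' : Y.dim = 1) (hed' : C.Deg 1 e') (he1' : HasDegree C e' 1)
    (ha' : IsAct a') (he' : ∀ g, C.pull (a' g) e' = e') {γ γ' : Φ → ℕ}
    (hk : ∀ φ, PermZero (bc C K) (uP (bc C K) a (tm C K 1 e) (u φ)) (Fin (2 * γ φ + 1)))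
    (hk' : ∀ φ, PermZero (bc C K) (uP (bc C K) a' (tm C K 1 e') (u φ)) (Fin (2 * γ' φ + 1)))
    {n : ℕ} (hn : ∑ φ, γ φ * γ' φ < n) {β : Fin n → C.A (X.prod Y)}
    (hβ : ∀ j, InAlbKer C (β j))
    (hi : ∀ j g, C.pull (prodMap (a g) (a' g)) (β j) = β j) (t : Fin n → (W ⟶ X.prod Y)) :
    (Matrix.of fun i j => C.pull (t i) (β j)).det = 0 := by
  have : CharZero K := algebraRat.charZero K
  have hdeg : ∀ j, C.Deg 2 (β j) := by
    intro j
    have h1 := (hβ j).deg
    have h2 : (((X.prod Y).dim : ℕ) : ℤ) = 2 := by rw [dim_prod, hd, hd']; norm_num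
    rwa [h2] at h1
  have key := pq_det (C := bc C K) (a := a) (a' := a') (e := tm C K 1 e) (e' := tm C K 1 e') hu hd
    (bc_gr_mem C K hed 1) (bc_degOne K he1) ha (fun g => by rw [bc_pull_tm, he]) hd'
    (bc_gr_mem C K hed' 1) (bc_degOne K he1') ha' (fun g => by rw [bc_pull_tm, he']) hk hk' hn
    (β := fun j => tm C K 1 (β j)) (fun j => bc_gr_mem C K (hdeg j) 1)
    (fun j => by rw [bc_mid, bc_comp, (albKer_fix hd hd' hed hed' (hβ j)).1])
    (fun j => by rw [bc_mid, bc_comp, (albKer_fix hd hd' hed hed' (hβ j)).2])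
    (fun j g => by rw [bc_pull_tm, hi]) t
  apply tm_inj K
  rw [tm_zero]
  rw [← key]
  let f : C.A W →+* (bc C K).A W :=
    { toFun := tm C K 1
      map_one' := tm_one C K
      map_mul' := fun a b => by rw [bc_mul_tm, one_mul]
      map_zero' := tm_zero C K 1
      map_add' := fun a b => tm_add C K 1 a b }
  exact RingHom.map_det f _

end transfer

end Pool.Agent.K4H60.Voi
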