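import Pool.Agent.K4H60.Voi.Dom

/-!
# Voisin's conjecture for surfaces covered by product-quotients
-/

open CategoryTheory AlgebraicGeometry
open scoped TensorProduct

universe u v w

namespace Pool.Agent.K4H60.Voi

set_option linter.unusedSectionVars false

open Pool.Agent.H914 Pool.Agent.H914.VarClass Pool.Agent.H914.VarClass.Obj Pool.Agent.W492.BB
  Pool.Agent.W550.Corr Pool.Agent.TH133 Pool.Agent.Y152.AS

variable {k : Type u} [Field k] {𝒱 : VarClass k}

attribute [local instance] ctCommRing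

variable {C : TheoryData.{u, v, 0} 𝒱 ℚ} [hC : IsChowProj C] (K : Type) [Field K] [Algebra ℚ K]
  {X Y Z W V T S : 𝒱.Obj}

include hC

lemma partValue_eq {G : Type} [Fintype G] (a : G → (X ⟶ X)) (e : C.A X) (u : G → K)
    (x y : W ⟶ X) :
    vl (bc C K) (uP (bc C K) a (tm C K 1 e) u) x y = partValue C K a e u x y := by
  rw [uP, vl_sum]
  refine Finset.sum_congr rfl fun g _ => ?_
  rw [vl_smul]
  have h1 : vl (bc C K) (gP (bc C K) a (tm C K 1 e) g) x y =
      tm C K 1 (C.pull (Obj.lift x (y ≫ a g)) (mid C e)) := by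
    rw [gP, vl_pull, bc_mid, Category.comp_id]
    rfl
  rw [h1]
  change u g • ((1 : K) ⊗ₜ[ℚ] C.pull (Obj.lift x (y ≫ a g)) (mid C e)) = _
  rw [TensorProduct.smul_tmul', smul_eq_mul, mul_one]
  rfl

lemma permZero_of_rank {G : Type} [Fintype G] (a : G → (X ⟶ X)) (e : C.A X) (u : G → K) {m : ℕ}
    (h : ∀ (W : 𝒱.Obj) (x y : Fin m → (W ⟶ X)), ∑ σ : Equiv.Perm (Fin m),
      (List.ofFn fun i => partValue C K a e u (x i) (y (σ i))).prod = 0) :
    PermZero (bc C K) (uP (bc C K) a (tm C K 1 e) u) (Fin m) := by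
  intro W x y
  refine Eq.trans ?_ (h W x y)
  refine Finset.sum_congr rfl fun σ _ => ?_
  rw [← List.prod_ofFn]
  congr 1
  congr 1
  funext i
  exact partValue_eq K a e u (x i) (y (σ i))

lemma det_list {n : ℕ} (α : Fin n → C.A S) (s : Fin n → (W ⟶ S))
    (h : (Matrix.of fun r c => C.pull (s r) (α c)).det = 0) : altSum C α s = 0 := by
  rw [← Matrix.det_transpose, Matrix.det_apply] at h
  refine Eq.trans ?_ h
  refine Finset.sum_congr rfl fun σ _ => ?_
  rw [List.prod_ofFn]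
  rfl

/-- Product-quotients. -/
theorem covered {ι : Type} [Fintype ι] (X Y : ι → 𝒱.Obj) (G : ι → Type) [∀ i, Group (G i)]
    [∀ i, Fintype (G i)] [∀ i, DecidableEq (G i)] (a : ∀ i, G i → (X i ⟶ X i))
    (a' : ∀ i, G i → (Y i ⟶ Y i)) (Φ : ι → Type) [∀ i, Fintype (Φ i)]
    (u : ∀ i, Φ i → G i → K) (γ γ' : ∀ i, Φ i → ℕ)
    (hu : ∀ i, IsSystem (u i)) (hX : ∀ i, IsCurveWithRanks C K (X i) (a i) (u i) (γ i))
    (hY : ∀ i, IsCurveWithRanks C K (Y i) (a' i) (u i) (γ' i)) {S : 𝒱.Obj}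
    (hS : IsCoveredByQuotients C a a' S) {n : ℕ} (hn : ∑ i, ∑ φ, γ i φ * γ' i φ < n) :
    VoisinVanishing C S n := by
  classical
  intro α hα W s
  obtain ⟨b, hb⟩ := hS
  choose β hβ hβi hβα using fun j => hb (α j) (hα j)
  have key := det_family (C := C) (W := W) (fun i => (X i).prod (Y i))
    (fun i => ∑ φ, γ i φ * γ' i φ) hn b (fun i j => β j i) ?_ s
  · refine det_list α s ?_
    rw [← key]
    congr 1
    funext r c
    rw [Matrix.of_apply, Matrix.of_apply, hβα c]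
  · intro i m j hm W t
    obtain ⟨hd, h1, h2, e, hed, he1, he, hk⟩ := hX i
    obtain ⟨hd', h1', h2', e', hed', he1', he', hk'⟩ := hY i
    exact pq_chow K (hu i) hd hed he1 ⟨h1, h2⟩ he hd' hed' he1' ⟨h1', h2'⟩ he'
      (fun φ => permZero_of_rank K (a i) e (u i φ) (hk φ))
      (fun φ => permZero_of_rank K (a' i) e' (u i φ) (hk' φ)) hm
      (fun c => hβ (j c) i) (fun c g => hβi (j c) i g) t

end Pool.Agent.K4H60.Voi
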