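import Pool.Agent.K4H60.Voi.Det
import Pool.Agent.K4H60.Voi.Def
import Mathlib.Algebra.MonoidAlgebra.Basic

/-!
# Finite groups acting on curves, group algebras and correspondences
-/

open CategoryTheory AlgebraicGeometry

universe u v w

namespace Pool.Agent.K4H60.Voi

set_option linter.unusedSectionVars false

open Pool.Agent.H914 Pool.Agent.H914.VarClass Pool.Agent.H914.VarClass.Obj Pool.Agent.W492.BB
  Pool.Agent.W550.Corr Pool.Agent.TH133

variable {k : Type u} [Field k] {𝒱 : VarClass k}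

variable {F : Type w} [Field F] {C : TheoryData.{u, v, w} 𝒱 F} [hC : IsCT C]
  {X Y Z W V T : 𝒱.Obj}

attribute [local instance] ctCommRing

/-- The class `e` on `X` has degree `1`. -/
def DegOne {F : Type w} [Field F] (C : TheoryData.{u, v, w} 𝒱 F) {X : 𝒱.Obj} (e : C.A X) : Prop :=
  ∀ Y : 𝒱.Obj, C.push (snd X Y) (C.pull (fst X Y) e) = 1 ∧
    C.push (fst Y X) (C.pull (snd Y X) e) = 1

/-- The correspondence `[Δ] - e × X - X × e`. -/
noncomputable def mid {F : Type w} [Field F] (C : TheoryData.{u, v, w} 𝒱 F) {X : 𝒱.Obj}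
    (e : C.A X) : C.A (X.prod X) := dg C X - C.pull (fst X X) e - C.pull (snd X X) e

lemma smul_comp1 (q : F) (Γ : C.A (X.prod Y)) (Δ : C.A (Y.prod Z)) :
    C.comp (q • Γ) Δ = q • C.comp Γ Δ := by
  rw [← compL_apply C Γ Δ, ← compL_apply C (q • Γ) Δ, map_smul (compL C), LinearMap.smul_apply]

lemma comp_smul1 (q : F) (Γ : C.A (X.prod Y)) (Δ : C.A (Y.prod Z)) :
    C.comp Γ (q • Δ) = q • C.comp Γ Δ := by
  rw [← compL_apply C Γ Δ, ← compL_apply C Γ (q • Δ), map_smul (compL C Γ)]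

include hC

lemma comp_pull_fst (e : C.A X) (Δ : C.A (Y.prod Z)) (x : W ⟶ X) (z : W ⟶ Z) :
    vl C (C.comp (C.pull (fst X Y) e) Δ) x z = C.pull x e * C.pull z (C.act Δ 1) := by
  rw [vl_comp, vl_fst, C.pull_comp, C.proj_left, pull_act, map_one, mul_one]

lemma comp_pull_snd (e : C.A Y) (Δ : C.A (Y.prod Z)) (x : W ⟶ X) (z : W ⟶ Z) :
    vl C (C.comp (C.pull (snd X Y) e) Δ) x z = C.pull z (C.act Δ e) := by
  rw [vl_comp, vl_snd, hC.comm, pull_act]

lemma push_one_snd (h : 0 < X.dim) : C.push (snd X Y) (1 : C.A (X.prod Y)) = 0 := by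
  have h1 := C.push_mem (snd X Y) (C.one_mem (X.prod Y))
  have h2 : (0 : ℤ) + 1 * ((Y.dim : ℤ) - ((X.prod Y).dim : ℤ)) < 0 := by
    rw [dim_prod]
    push_cast
    have : (0 : ℤ) < X.dim := by exact_mod_cast h
    linarith
  rw [C.gr_neg _ _ h2] at h1
  exact h1

lemma act_mid_one {e : C.A X} (hd : X.dim = 1) (he1 : DegOne C e) :
    C.act (mid C e) 1 = 0 := by
  have h1 : C.act (C.pull (fst X X) e) 1 = 1 := by
    rw [TheoryData.act_apply, map_one, mul_one, (he1 X).1]
  have h2 : C.act (C.pull (snd X X) e) 1 = 0 := by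
    rw [TheoryData.act_apply, map_one, C.proj_left, push_one_snd (by omega), mul_zero]
  rw [mid, C.act_sub, C.act_sub, act_dg, h1, h2, sub_self, sub_zero]

lemma act_mid_e {e : C.A X} (hd : X.dim = 1) (he : C.Deg 1 e) (he1 : DegOne C e) :
    C.act (mid C e) e = 0 := by
  have h0 : e * e = 0 := hC.gr_top _ (1 + 1) _ (C.mul_mem he he) (by rw [hd]; norm_num)
  have h1 : C.act (C.pull (fst X X) e) e = 0 := by
    rw [TheoryData.act_apply, ← map_mul, h0, map_zero, map_zero]
  have h2 : C.act (C.pull (snd X X) e) e = e := by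
    rw [TheoryData.act_apply, C.proj_left, (he1 X).1, mul_one]
  rw [mid, C.act_sub, C.act_sub, act_dg, h1, h2, sub_zero, sub_self]

lemma mid_idem {e : C.A X} (hd : X.dim = 1) (he : C.Deg 1 e) (he1 : DegOne C e) :
    C.comp (mid C e) (mid C e) = mid C e := by
  have h1 : C.comp (C.pull (fst X X) e) (mid C e) = 0 := by
    apply ext_vl
    intro W x y
    rw [comp_pull_fst, act_mid_one hd he1, map_zero, mul_zero, vl, map_zero]
  have h2 : C.comp (C.pull (snd X X) e) (mid C e) = 0 := by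
    apply ext_vl
    intro W x y
    rw [comp_pull_snd, act_mid_e hd he he1, map_zero, vl, map_zero]
  conv_lhs => rw [mid]
  rw [sub_comp, sub_comp]
  change C.comp (dg C X) (mid C e) - C.comp (C.pull (fst X X) e) (mid C e) -
    C.comp (C.pull (snd X X) e) (mid C e) = _
  rw [h1, h2, dg_comp, sub_zero, sub_zero]

lemma mid_symm (e : C.A X) : tp C (mid C e) = mid C e := by
  apply ext_vl
  intro W x y
  rw [vl_tp]
  have h1 : vl C (dg C X) y x = vl C (dg C X) x y := by
    rw [← vl_tp (dg C X), tp_dg]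
  have h4 : mid C e = dg C X - C.pull (fst X X) e - C.pull (snd X X) e := rfl
  rw [h4, vl_sub, vl_sub, vl_sub, vl_sub, h1, vl_fst, vl_snd, vl_fst, vl_snd]
  abel

lemma mid_inv {e : C.A X} {g g' : X ⟶ X} (hg : g ≫ g' = 𝟙 X) (hg' : g' ≫ g = 𝟙 X)
    (he : C.pull g e = e) (x y : W ⟶ X) :
    vl C (mid C e) (x ≫ g) (y ≫ g) = vl C (mid C e) x y := by
  have h0 : prodMap g g ≫ prodMap g' g' = 𝟙 (X.prod X) := by
    apply prod_ext
    · rw [Category.assoc, prodMap_fst, ← Category.assoc, prodMap_fst, Category.assoc, hg]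
      simp
    · rw [Category.assoc, prodMap_snd, ← Category.assoc, prodMap_snd, Category.assoc, hg]
      simp
  have h0' : prodMap g' g' ≫ prodMap g g = 𝟙 (X.prod X) := by
    apply prod_ext
    · rw [Category.assoc, prodMap_fst, ← Category.assoc, prodMap_fst, Category.assoc, hg']
      simp
    · rw [Category.assoc, prodMap_snd, ← Category.assoc, prodMap_snd, Category.assoc, hg']
      simp
  have h1 : C.pull (prodMap g g) (dg C X) = dg C X := by
    rw [pull_iso C _ _ h0 h0']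
    change C.push (prodMap g' g') (C.push (Obj.lift (𝟙 X) (𝟙 X)) 1) =
      C.push (Obj.lift (𝟙 X) (𝟙 X)) 1
    have h2 : Obj.lift (𝟙 X) (𝟙 X) ≫ prodMap g' g' = g' ≫ Obj.lift (𝟙 X) (𝟙 X) := by
      apply prod_ext <;> simp [comp_lift]
    have h3 : C.push g' (1 : C.A X) = 1 := by
      rw [← pull_iso C g g' hg hg', map_one]
    rw [← C.push_comp, h2, C.push_comp, h3]
  have h2 : vl C (dg C X) (x ≫ g) (y ≫ g) = vl C (dg C X) x y := by
    rw [← vl_pull, h1]
  have h4 : mid C e = dg C X - C.pull (fst X X) e - C.pull (snd X X) e := rfl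
  rw [h4, vl_sub, vl_sub, vl_sub, vl_sub, h2, vl_fst, vl_snd, vl_fst, vl_snd, C.pull_comp,
    C.pull_comp, he]

/-- The projector acts as the identity on classes with vanishing push-forward. -/
lemma mid_fix {e : C.A X} (hd : X.dim = 1) (hd' : Y.dim = 1) (he : C.Deg 1 e)
    {β : C.A (X.prod Y)} (hβ : C.Deg 2 β) (h0 : C.push (snd X Y) β = 0) :
    C.comp (mid C e) β = β := by
  have h1 : C.comp (C.pull (fst X X) e) β = 0 := by
    apply ext_vl
    intro W x y
    rw [comp_pull_fst, TheoryData.act_apply, map_one, mul_one, h0, map_zero, mul_zero, vl,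
      map_zero]
  have h2 : C.comp (C.pull (snd X X) e) β = 0 := by
    apply ext_vl
    intro W x y
    have h3 : β * C.pull (fst X Y) e = 0 := by
      apply hC.gr_top _ (2 + 1) _ (C.mul_mem hβ (C.pull_mem _ he))
      rw [dim_prod, hd, hd']
      norm_num
    rw [comp_pull_snd, TheoryData.act_apply, h3, map_zero, map_zero, vl, map_zero]
  rw [mid, sub_comp, sub_comp, h1, h2, dg_comp, sub_zero, sub_zero]

lemma mid_mem {e : C.A X} (hd : X.dim = 1) (hed : C.Deg 1 e) :
    mid C e ∈ C.gr (X.prod X) X.dim := by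
  rw [hd]
  have h1 : dg C X ∈ C.gr (X.prod X) X.dim := by
    have h2 := C.push_mem (Obj.lift (𝟙 X) (𝟙 X)) (C.one_mem X)
    have e1 : (0 : ℤ) + 1 * (((X.prod X).dim : ℤ) - (X.dim : ℤ)) = X.dim := by
      rw [dim_prod]; push_cast; ring
    rw [e1] at h2
    exact h2
  rw [hd] at h1
  exact Submodule.sub_mem _ (Submodule.sub_mem _ h1 (C.pull_mem _ hed)) (C.pull_mem _ hed)

omit hC

section grp

variable {G : Type} [Group G] [Fintype G]

/-- A left action of the group `G` on `X` by automorphisms. -/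
structure IsAct (a : G → (X ⟶ X)) : Prop where
  one : a 1 = 𝟙 X
  mul : ∀ g h, a (g * h) = a h ≫ a g

/-- The correspondence attached to the element `g` of the group. -/
noncomputable def gP {F : Type w} [Field F] (C : TheoryData.{u, v, w} 𝒱 F) {X : 𝒱.Obj} {G : Type}
    (a : G → (X ⟶ X)) (e : C.A X) (g : G) : C.A (X.prod X) :=
  C.pull (prodMap (𝟙 X) (a g)) (mid C e)

/-- The correspondence attached to the element `u` of the group algebra. -/
noncomputable def uP {F : Type w} [Field F] (C : TheoryData.{u, v, w} 𝒱 F) {X : 𝒱.Obj} {G : Type}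
    [Fintype G] (a : G → (X ⟶ X)) (e : C.A X) (u : G → F) : C.A (X.prod X) :=
  ∑ g, u g • gP C a e g

variable {a : G → (X ⟶ X)} {e : C.A X} {a' : G → (Y ⟶ Y)} {e' : C.A Y}

lemma IsAct.inv_right (h : IsAct a) (g : G) : a g ≫ a g⁻¹ = 𝟙 X := by
  rw [← h.mul, inv_mul_cancel, h.one]

lemma IsAct.inv_left (h : IsAct a) (g : G) : a g⁻¹ ≫ a g = 𝟙 X := by
  rw [← h.mul, mul_inv_cancel, h.one]

include hC

lemma vl_gP (g : G) (x y : W ⟶ X) :
    vl C (gP C a e g) x y = vl C (mid C e) x (y ≫ a g) := by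
  rw [gP, vl_pull, Category.comp_id]

lemma vl_gP' (ha : IsAct a) (he : ∀ g, C.pull (a g) e = e) (g : G) (x y : W ⟶ X) :
    vl C (gP C a e g) x y = vl C (mid C e) (x ≫ a g⁻¹) y := by
  rw [vl_gP, ← mid_inv (ha.inv_left g) (ha.inv_right g) (he g⁻¹) x (y ≫ a g), Category.assoc,
    ha.inv_right, Category.comp_id]

lemma gP_comp (hd : X.dim = 1) (hed : C.Deg 1 e) (he1 : DegOne C e) (ha : IsAct a)
    (he : ∀ g, C.pull (a g) e = e) (g h : G) :
    C.comp (gP C a e g) (gP C a e h) = gP C a e (g * h) := by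
  apply ext_vl
  intro W x y
  rw [vl_comp, vl_gP' ha he, vl_gP, Category.assoc, Category.assoc, ← vl_comp,
    mid_idem hd hed he1, ← vl_gP' ha he, vl_gP, vl_gP, Category.assoc, ← ha.mul]

lemma gP_one (ha : IsAct a) : gP C a e 1 = mid C e := by
  apply ext_vl
  intro W x y
  rw [vl_gP, ha.one, Category.comp_id]

lemma gP_tp (ha : IsAct a) (he : ∀ g, C.pull (a g) e = e) (g : G) :
    tp C (gP C a e g) = gP C a e g⁻¹ := by
  apply ext_vl
  intro W x y
  rw [vl_tp, vl_gP, vl_symm (mid_symm e), vl_gP' ha he, inv_inv]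

lemma gP_mem (hd : X.dim = 1) (hed : C.Deg 1 e) (g : G) :
    gP C a e g ∈ C.gr (X.prod X) X.dim := C.pull_mem _ (mid_mem hd hed)

lemma uP_mem (hd : X.dim = 1) (hed : C.Deg 1 e) (u : G → F) :
    uP C a e u ∈ C.gr (X.prod X) X.dim :=
  Submodule.sum_mem _ fun g _ => Submodule.smul_mem _ _ (gP_mem hd hed g)

lemma uP_tp (ha : IsAct a) (he : ∀ g, C.pull (a g) e = e) {u : G → F} (hu : ∀ g, u g⁻¹ = u g) :
    tp C (uP C a e u) = uP C a e u := by
  rw [uP, tp_sum, ← Equiv.sum_comp (Equiv.inv G)]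
  refine Finset.sum_congr rfl fun g _ => ?_
  rw [tp_smul, gP_tp ha he, Equiv.inv_apply, inv_inv, hu]

lemma uP_comp (hd : X.dim = 1) (hed : C.Deg 1 e) (he1 : DegOne C e) (ha : IsAct a)
    (he : ∀ g, C.pull (a g) e = e) (u v : G → F) :
    C.comp (uP C a e u) (uP C a e v) = uP C a e (conv u v) := by
  have h1 : C.comp (uP C a e u) (uP C a e v) =
      ∑ g, ∑ h, (u g * v h) • gP C a e (g * h) := by
    rw [uP, sum_comp]
    refine Finset.sum_congr rfl fun g _ => ?_
    rw [uP, comp_sum]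
    refine Finset.sum_congr rfl fun h _ => ?_
    rw [smul_comp1, comp_smul1, gP_comp hd hed he1 ha he, smul_smul]
  rw [h1, uP]
  have h2 : ∀ g, conv u v g • gP C a e g = ∑ h, (u h * v (h⁻¹ * g)) • gP C a e g := by
    intro g
    rw [conv, Finset.sum_smul]
  have h3 : ∑ g, conv u v g • gP C a e g = ∑ h, ∑ g, (u h * v (h⁻¹ * g)) • gP C a e g := by
    rw [Finset.sum_congr rfl fun g _ => h2 g, Finset.sum_comm]
  rw [h3]
  refine Finset.sum_congr rfl fun h _ => ?_
  refine Fintype.sum_equiv (Equiv.mulLeft h) _ _ fun g => ?_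
  rw [Equiv.coe_mulLeft, inv_mul_cancel_left]

/-- The projectors attached to self-adjoint idempotents of the group algebra. -/
lemma uP_oddSym (hd : X.dim = 1) (hed : C.Deg 1 e) (he1 : DegOne C e) (ha : IsAct a)
    (he : ∀ g, C.pull (a g) e = e) {u : G → F} (hu : conv u u = u) (hu' : ∀ g, u g⁻¹ = u g)
    {γ : ℕ} (hk : PermZero C (uP C a e u) (Fin (2 * γ + 1))) : OddSym (uP C a e u) γ :=
  ⟨by rw [uP_comp hd hed he1 ha he, hu], uP_tp ha he hu', uP_mem hd hed u, by omega,
    permZero_double hk⟩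

section two

variable (hd : X.dim = 1) (hed : C.Deg 1 e) (he1 : DegOne C e) (ha : IsAct a)
  (he : ∀ g, C.pull (a g) e = e) (hd' : Y.dim = 1) (hed' : C.Deg 1 e') (he1' : DegOne C e')
  (ha' : IsAct a') (he' : ∀ g, C.pull (a' g) e' = e')

lemma vl_gP_comp (ha : IsAct a) (he : ∀ g, C.pull (a g) e = e) {β : C.A (X.prod Y)}
    (hβ : C.comp (mid C e) β = β) (g : G) (x : W ⟶ X) (y : W ⟶ Y) :
    vl C (C.comp (gP C a e g) β) x y = vl C β (x ≫ a g⁻¹) y := by
  rw [vl_comp, vl_gP' ha he, Category.assoc, ← vl_comp, hβ]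

lemma vl_comp_gP {β : C.A (X.prod Y)} (hβ : C.comp β (mid C e') = β) (g : G) (x : W ⟶ X)
    (y : W ⟶ Y) : vl C (C.comp β (gP C a' e' g)) x y = vl C β x (y ≫ a' g) := by
  rw [vl_comp, vl_gP, Category.assoc, ← vl_comp, hβ]

lemma gP_swap (ha : IsAct a) (he : ∀ g, C.pull (a g) e = e) {β : C.A (X.prod Y)}
    (hβ : C.comp (mid C e) β = β) (hβ' : C.comp β (mid C e') = β)
    (hi : ∀ g, C.pull (prodMap (a g) (a' g)) β = β) (g : G) :
    C.comp (gP C a e g) β = C.comp β (gP C a' e' g) := by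
  apply ext_vl
  intro W x y
  rw [vl_gP_comp ha he hβ, vl_comp_gP hβ']
  conv_lhs => rw [← hi g, vl_pull, Category.assoc, ha.inv_left, Category.comp_id]

lemma uP_swap (ha : IsAct a) (he : ∀ g, C.pull (a g) e = e) {β : C.A (X.prod Y)}
    (hβ : C.comp (mid C e) β = β) (hβ' : C.comp β (mid C e') = β)
    (hi : ∀ g, C.pull (prodMap (a g) (a' g)) β = β) (u : G → F) :
    C.comp (uP C a e u) β = C.comp β (uP C a' e' u) := by
  rw [uP, uP, sum_comp, comp_sum]
  refine Finset.sum_congr rfl fun g _ => ?_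
  rw [smul_comp1, comp_smul1, gP_swap ha he hβ hβ' hi]

end two

end grp

end Pool.Agent.K4H60.Voi
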