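import Pool.Agent.K4H60.Voi.Det

/-!
# Symmetrizations of products of zero-cycles on `X × X` over arbitrary positions
-/

open CategoryTheory AlgebraicGeometry

universe u v w

namespace Pool.Agent.K4H60.Voi

set_option linter.unusedSectionVars false

open Pool.Agent.H914 Pool.Agent.H914.VarClass Pool.Agent.H914.VarClass.Obj Pool.Agent.W492.BB
  Pool.Agent.W550.Corr Pool.Agent.TH133

open Pool.Agent.R904.Voi (prt idx app_inv prt_ne idx_spec idx_eq Good good_or good_one)

variable {k : Type u} [Field k] {𝒱 : VarClass k}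

variable {F : Type w} [Field F] {C : TheoryData.{u, v, w} 𝒱 F} [hC : IsCT C]
  {X Y Z W V T P : 𝒱.Obj}

attribute [local instance] ctCommRing

include hC

/-- A class on `X × X` glued with a projector on both sides. -/
lemma glue2 {p α : C.A (X.prod X)} (hs : tp C p = p) (h1 : C.comp p α = α)
    (h2 : C.comp α p = α) (a b : W ⟶ X) :
    C.push (fst W (X.prod X)) (vl C p (snd W (X.prod X) ≫ fst X X) (fst W (X.prod X) ≫ a) *
      vl C p (snd W (X.prod X) ≫ snd X X) (fst W (X.prod X) ≫ b) *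
      C.pull (snd W (X.prod X)) α) = vl C α a b := by
  have e0 : C.pull (snd W (X.prod X)) α = vl C α (snd W (X.prod X) ≫ fst X X)
      (snd W (X.prod X) ≫ snd X X) := by
    rw [← pull_vl, vl_univ]
  have e1 : fst W (X.prod X) = aJ W X X ≫ fst (W.prod X) X ≫ fst W X := by
    simp [aJ]
  have e2 : aI W X X ≫ snd W (X.prod X) ≫ fst X X = fst (W.prod X) X ≫ snd W X := by
    simp [aI]
  have e3 : aI W X X ≫ snd W (X.prod X) ≫ snd X X = snd (W.prod X) X := by
    simp [aI]
  have e4 : aI W X X ≫ fst W (X.prod X) = fst (W.prod X) X ≫ fst W X := by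
    simp [aI]
  have e5 : ∀ c : W ⟶ X, aI W X X ≫ fst W (X.prod X) ≫ c =
      fst (W.prod X) X ≫ fst W X ≫ c := by
    intro c
    rw [← Category.assoc, e4, Category.assoc]
  have h3 : ∀ h : C.A (W.prod (X.prod X)), C.push (fst W (X.prod X)) h =
      C.push (fst W X) (C.push (fst (W.prod X) X) (C.pull (aI W X X) h)) := by
    intro h
    rw [pull_iso C (aI W X X) (aJ W X X) aI_aJ aJ_aI, ← C.push_comp, ← C.push_comp, ← e1]
  rw [e0, h3, map_mul (C.pull (aI W X X)), map_mul (C.pull (aI W X X)), pull_vl, pull_vl, pull_vl,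
    e2, e3, e5, e5]
  have h4 : vl C p (fst (W.prod X) X ≫ snd W X) (fst (W.prod X) X ≫ fst W X ≫ a) *
      vl C p (snd (W.prod X) X) (fst (W.prod X) X ≫ fst W X ≫ b) *
      vl C α (fst (W.prod X) X ≫ snd W X) (snd (W.prod X) X) =
      C.pull (fst (W.prod X) X) (vl C p (snd W X) (fst W X ≫ a)) *
      (vl C α (fst (W.prod X) X ≫ snd W X) (snd (W.prod X) X) *
        vl C p (snd (W.prod X) X) (fst (W.prod X) X ≫ fst W X ≫ b)) := by
    rw [pull_vl]
    ring
  rw [h4, C.proj_left, ← vl_comp, h2, vl_symm hs (snd W X) (fst W X ≫ a), ← vl_comp, h1]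

/-- A product of too many factors on one copy of `X × X`. -/
lemma vanish_one {p : C.A (X.prod X)} (hp : p ∈ C.gr (X.prod X) X.dim) (hd : 0 < X.dim)
    {a : C.A (X.prod X)} (ha : a ∈ C.gr (X.prod X) ((X.dim : ℤ) + X.dim))
    (c c' : X.prod X ⟶ X) (t : P ⟶ X.prod X) :
    vl C p (t ≫ c) (t ≫ c') * C.pull t a = 0 := by
  have h0 : vl C p c c' * a = 0 := by
    apply hC.gr_top _ (X.dim + (X.dim + X.dim))
    · exact C.mul_mem (vl_mem hp _ _) ha
    · rw [dim_prod]
      push_cast
      have : (0 : ℤ) < X.dim := by exact_mod_cast hd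
      linarith
  have h1 := congrArg (C.pull t) h0
  rwa [map_zero, map_mul, pull_vl] at h1

/-- A product of too many factors on two copies of `X × X`. -/
lemma vanish_two {p : C.A (X.prod X)} (hp : p ∈ C.gr (X.prod X) X.dim) (hd : 0 < X.dim)
    {a b : C.A (X.prod X)} (ha : a ∈ C.gr (X.prod X) ((X.dim : ℤ) + X.dim))
    (hb : b ∈ C.gr (X.prod X) ((X.dim : ℤ) + X.dim))
    (c c' : X.prod X ⟶ X) (t t' : P ⟶ X.prod X) :
    vl C p (t ≫ c) (t' ≫ c') * (C.pull t a * C.pull t' b) = 0 := by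
  set g : P ⟶ (X.prod X).prod (X.prod X) := Obj.lift t t' with hg
  have h0 : vl C p (fst (X.prod X) (X.prod X) ≫ c) (snd (X.prod X) (X.prod X) ≫ c') *
      (C.pull (fst (X.prod X) (X.prod X)) a * C.pull (snd (X.prod X) (X.prod X)) b) = 0 := by
    apply hC.gr_top _ (X.dim + ((X.dim + X.dim) + (X.dim + X.dim)))
    · exact C.mul_mem (vl_mem hp _ _) (C.mul_mem (C.pull_mem _ ha) (C.pull_mem _ hb))
    · rw [dim_prod, dim_prod]
      push_cast
      have : (0 : ℤ) < X.dim := by exact_mod_cast hd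
      linarith
  have h1 := congrArg (C.pull g) h0
  rw [map_zero, map_mul, map_mul, pull_vl, ← C.pull_comp, ← C.pull_comp] at h1
  have e1 : g ≫ fst (X.prod X) (X.prod X) = t := by rw [hg, lift_fst]
  have e2 : g ≫ snd (X.prod X) (X.prod X) = t' := by rw [hg, lift_snd]
  rwa [← Category.assoc, ← Category.assoc, e1, e2] at h1

omit hC in
/-- The two coordinates of the points `t j`. -/
noncomputable def co {n : ℕ} (t : Fin n → (P ⟶ X.prod X)) : Fin n ⊕ Fin n → (P ⟶ X) :=
  Sum.elim (fun j => t j ≫ fst X X) (fun j => t j ≫ snd X X)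

lemma vanish_pair {n : ℕ} {p : C.A (X.prod X)} (hp : p ∈ C.gr (X.prod X) X.dim) (hd : 0 < X.dim)
    {α : Fin n → C.A (X.prod X)} (hα : ∀ j, α j ∈ C.gr (X.prod X) ((X.dim : ℤ) + X.dim))
    (t : Fin n → (P ⟶ X.prod X)) {q q' : Fin n ⊕ Fin n} (hq : q ≠ q') :
    vl C p (co t q) (co t q') * ∏ j, C.pull (t j) (α j) = 0 := by
  classical
  have hone : ∀ (j : Fin n) (c c' : X.prod X ⟶ X),
      vl C p (t j ≫ c) (t j ≫ c') * ∏ j, C.pull (t j) (α j) = 0 := by
    intro j c c'
    rw [← Finset.mul_prod_erase Finset.univ _ (Finset.mem_univ j), ← mul_assoc,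
      vanish_one hp hd (hα j), zero_mul]
  have htwo : ∀ (j j' : Fin n) (_ : j ≠ j') (c c' : X.prod X ⟶ X),
      vl C p (t j ≫ c) (t j' ≫ c') * ∏ j, C.pull (t j) (α j) = 0 := by
    intro j j' hj c c'
    have hj' : j' ∈ Finset.univ.erase j := Finset.mem_erase.2 ⟨hj.symm, Finset.mem_univ _⟩
    rw [← Finset.mul_prod_erase Finset.univ _ (Finset.mem_univ j),
      ← Finset.mul_prod_erase _ _ hj', ← mul_assoc (C.pull (t j) (α j)), ← mul_assoc,
      vanish_two hp hd (hα j) (hα j'), zero_mul]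
  have hall : ∀ (j j' : Fin n) (c c' : X.prod X ⟶ X),
      vl C p (t j ≫ c) (t j' ≫ c') * ∏ j, C.pull (t j) (α j) = 0 := by
    intro j j' c c'
    by_cases hj : j = j'
    · subst hj
      exact hone j c c'
    · exact htwo j j' hj c c'
  rcases q with q | q <;> rcases q' with q' | q' <;> exact hall _ _ _ _

/-- The symmetrization over the positions in `A` of a product of zero-cycles on `X × X` which come
from a motive with vanishing permanents is zero. -/
theorem relP [CharZero F] {n m : ℕ} {p : C.A (X.prod X)} (hp : C.comp p p = p) (hs : tp C p = p)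
    (hpd : p ∈ C.gr (X.prod X) X.dim) (hd : 0 < X.dim) (h : PermZero C p (Fin m ⊕ Fin m))
    {α : Fin n → C.A (X.prod X)} (hα : ∀ j, α j ∈ C.gr (X.prod X) ((X.dim : ℤ) + X.dim))
    (hfix : ∀ j, C.comp p (α j) = α j) (hfix' : ∀ j, C.comp (α j) p = α j)
    (A : Finset (Fin n ⊕ Fin n)) (e : Fin m ≃ A) (z : Fin n ⊕ Fin n → (W ⟶ X)) :
    ∑ ρ : Equiv.Perm A, ∏ j, vl C (α j) (z (Equiv.Perm.ofSubtype ρ (Sum.inl j)))
      (z (Equiv.Perm.ofSubtype ρ (Sum.inr j))) = 0 := by
  classical
  obtain ⟨P, f, t, hP⟩ := exists_fub C W (X.prod X) n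
  let R : Equiv.Perm (Fin m) → Equiv.Perm (Fin n ⊕ Fin n) := fun ρ =>
    Equiv.Perm.ofSubtype (e.permCongr ρ)
  have hRmul : ∀ g ρ, R g * R ρ = R (g * ρ) := by
    intro g ρ
    simp only [R]
    rw [← map_mul]
    congr 1
    ext q
    simp [Equiv.permCongr_apply]
  have hRin : ∀ ρ (b : Fin m), R ρ (e b) = e (ρ b) := by
    intro ρ b
    simp only [R]
    rw [Equiv.Perm.ofSubtype_apply_coe, Equiv.permCongr_apply, Equiv.symm_apply_apply]
  have hRout : ∀ ρ (q : Fin n ⊕ Fin n), q ∉ A → R ρ q = q := by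
    intro ρ q hq
    exact Equiv.Perm.ofSubtype_apply_of_not_mem _ hq
  let B : C.A P := ∏ j, C.pull (t j) (α j)
  let N : (Fin n ⊕ Fin n → (W ⟶ X)) → C.A P := fun z => ∏ q ∈ Aᶜ, vl C p (co t q) (f ≫ z q)
  let pts : (Fin n ⊕ Fin n → (W ⟶ X)) → Fin m ⊕ Fin m → (P ⟶ X) := fun z =>
    Sum.elim (fun i => f ≫ z (e i)) (fun i => co t (e i))
  let term : (Fin n ⊕ Fin n → (W ⟶ X)) → Equiv.Perm (Fin m ⊕ Fin m) → C.A W := fun z σ =>
    C.push f ((∏ j : Fin m, vl C p (pts z (σ (Sum.inl j))) (pts z (σ (Sum.inr j)))) * (N z * B))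
  have hsum : ∀ z, ∑ σ, term z σ = 0 := by
    intro z
    have h1 := haf hp hs h (pts z)
    simp only [term]
    rw [← map_sum, ← Finset.sum_mul, h1, zero_mul, map_zero]
  have hbad : ∀ (z) (σ : Equiv.Perm (Fin m ⊕ Fin m)), ¬ Good σ → term z σ = 0 := by
    intro z σ hσ
    rcases good_or σ with h1 | ⟨b, b', hbb, h1⟩
    · exact absurd h1 hσ
    have h2 := factor hs (pts z) σ (Sum.inr b)
    rw [h1] at h2
    have h3 : (∏ j : Fin m, vl C p (pts z (σ (Sum.inl j))) (pts z (σ (Sum.inr j)))) *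
        (N z * B) = 0 := by
      rw [← Finset.mul_prod_erase Finset.univ _ (Finset.mem_univ (idx σ (Sum.inr b))), h2]
      have hne : ((e b : Fin n ⊕ Fin n)) ≠ e b' := by
        intro h4
        exact hbb (e.injective (Subtype.ext h4))
      have h4 := vanish_pair hpd hd hα t hne
      have e1 : pts z (Sum.inr b) = co t (e b) := rfl
      have e2 : pts z (Sum.inr b') = co t (e b') := rfl
      rw [e1, e2]
      simp only [B]
      linear_combination h4 * ((∏ j ∈ Finset.univ.erase (idx σ (Sum.inr b)),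
        vl C p (pts z (σ (Sum.inl j))) (pts z (σ (Sum.inr j)))) * N z)
    simp only [term]
    rw [h3, map_zero]
  have hgood : ∀ (z) (σ : Equiv.Perm (Fin m ⊕ Fin m)) (ρ : Equiv.Perm (Fin m)),
      (∀ b, prt σ (Sum.inr b) = Sum.inl (ρ b)) → term z σ =
        ∏ j, vl C (α j) (z (R ρ (Sum.inl j))) (z (R ρ (Sum.inr j))) := by
    intro z σ ρ hρ
    have hinj : Function.Injective fun b : Fin m => idx σ (Sum.inr b) := by
      intro b b' hb
      by_contra hne
      have h1 := idx_eq σ hb (fun h => hne (Sum.inr_injective h))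
      rw [hρ] at h1
      cases h1
    let ε : Fin m ≃ Fin m := Equiv.ofBijective _ (Finite.injective_iff_bijective.1 hinj)
    have h1 : (∏ j : Fin m, vl C p (pts z (σ (Sum.inl j))) (pts z (σ (Sum.inr j)))) =
        ∏ b : Fin m, vl C p (co t (e b)) (f ≫ z (R ρ (e b))) := by
      rw [← Equiv.prod_comp ε]
      refine Finset.prod_congr rfl fun b _ => ?_
      have h2 := factor hs (pts z) σ (Sum.inr b)
      rw [hρ] at h2
      rw [hRin]
      exact h2
    have h2 : (∏ b : Fin m, vl C p (co t (e b)) (f ≫ z (R ρ (e b)))) * N z =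
        ∏ q, vl C p (co t q) (f ≫ z (R ρ q)) := by
      rw [← Finset.prod_mul_prod_compl A]
      congr 1
      · rw [← Finset.prod_coe_sort A (fun q => vl C p (co t q) (f ≫ z (R ρ q)))]
        exact Equiv.prod_comp e (fun q : A => vl C p (co t q) (f ≫ z (R ρ q)))
      · refine Finset.prod_congr rfl fun q hq => ?_
        rw [hRout ρ q (Finset.mem_compl.1 hq)]
    simp only [term]
    rw [h1, ← mul_assoc, h2, Fintype.prod_sum_type, ← Finset.prod_mul_distrib]
    simp only [B]
    rw [← Finset.prod_mul_distrib]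
    have h3 : ∀ j : Fin n, vl C p (co t (Sum.inl j)) (f ≫ z (R ρ (Sum.inl j))) *
        vl C p (co t (Sum.inr j)) (f ≫ z (R ρ (Sum.inr j))) * C.pull (t j) (α j) =
        vl C (vl C p (snd W (X.prod X) ≫ fst X X) (fst W (X.prod X) ≫ z (R ρ (Sum.inl j))) *
          vl C p (snd W (X.prod X) ≫ snd X X) (fst W (X.prod X) ≫ z (R ρ (Sum.inr j))) *
          C.pull (snd W (X.prod X)) (α j)) f (t j) := by
      intro j
      have e1 : Obj.lift f (t j) ≫ snd W (X.prod X) ≫ fst X X = co t (Sum.inl j) := by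
        rw [← Category.assoc, lift_snd]
        rfl
      have e2 : Obj.lift f (t j) ≫ snd W (X.prod X) ≫ snd X X = co t (Sum.inr j) := by
        rw [← Category.assoc, lift_snd]
        rfl
      have e3 : ∀ c : W ⟶ X, Obj.lift f (t j) ≫ fst W (X.prod X) ≫ c = f ≫ c := by
        intro c
        rw [← Category.assoc, lift_fst]
      conv_rhs => rw [vl, map_mul, map_mul, pull_vl, pull_vl, ← C.pull_comp, e1, e2, e3, e3,
        lift_snd]
    rw [Finset.prod_congr rfl fun j _ => h3 j, hP]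
    exact Finset.prod_congr rfl fun j _ => glue2 hs (hfix j) (hfix' j) _ _
  have hterm : ∀ (z) (σ : Equiv.Perm (Fin m ⊕ Fin m)), term z σ = if hg : Good σ then
      ∏ j, vl C (α j) (z (R hg.choose (Sum.inl j))) (z (R hg.choose (Sum.inr j))) else 0 := by
    intro z σ
    split_ifs with hg
    · exact hgood z σ _ hg.choose_spec
    · exact hbad z σ hg
  -- the sum over all permutations of `z`
  have h1 : ∑ g : Equiv.Perm (Fin m), ∑ σ : Equiv.Perm (Fin m ⊕ Fin m),
      term (fun q => z (R g q)) σ = 0 :=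
    Finset.sum_eq_zero fun g _ => hsum (fun q => z (R g q))
  rw [Finset.sum_comm] at h1
  have h2 : ∀ σ : Equiv.Perm (Fin m ⊕ Fin m), ∑ g : Equiv.Perm (Fin m),
      term (fun q => z (R g q)) σ = (if Good σ then (1 : F) else 0) •
        ∑ ρ : Equiv.Perm (Fin m), ∏ j, vl C (α j) (z (R ρ (Sum.inl j)))
          (z (R ρ (Sum.inr j))) := by
    intro σ
    split_ifs with hg
    · rw [one_smul]
      have h3 : ∀ g : Equiv.Perm (Fin m), term (fun q => z (R g q)) σ =
          ∏ j, vl C (α j) (z (R (g * hg.choose) (Sum.inl j)))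
            (z (R (g * hg.choose) (Sum.inr j))) := by
        intro g
        refine (hterm (fun q => z (R g q)) σ).trans ?_
        rw [dif_pos hg, ← hRmul]
        rfl
      rw [Finset.sum_congr rfl fun g _ => h3 g]
      exact Equiv.sum_comp (Equiv.mulRight hg.choose)
        (fun ρ : Equiv.Perm (Fin m) => ∏ j, vl C (α j) (z (R ρ (Sum.inl j)))
          (z (R ρ (Sum.inr j))))
    · rw [zero_smul]
      refine Finset.sum_eq_zero fun g _ => ?_
      refine (hterm (fun q => z (R g q)) σ).trans ?_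
      rw [dif_neg hg]
  rw [Finset.sum_congr rfl fun σ _ => h2 σ, ← Finset.sum_smul] at h1
  have h3 : (∑ σ : Equiv.Perm (Fin m ⊕ Fin m), (if Good σ then (1 : F) else 0)) ≠ 0 := by
    rw [Finset.sum_boole, Nat.cast_ne_zero, Finset.card_ne_zero]
    exact ⟨1, Finset.mem_filter.2 ⟨Finset.mem_univ _, good_one⟩⟩
  have h4 := (smul_eq_zero.1 h1).resolve_left h3
  rw [← Equiv.sum_comp e.permCongr]
  exact h4

end Pool.Agent.K4H60.Voi
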