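import Pool.Agent.K4H60.Voi.Dom
import Pool.Agent.K4H60.Voi.RelP
import Pool.Agent.K4H60.Voi.AltQ

/-!
# Determinants of symmetric and antisymmetric zero-cycles on squares
-/

open CategoryTheory AlgebraicGeometry

universe u v w

namespace Pool.Agent.K4H60.Voi

set_option linter.unusedSectionVars false

open Pool.Agent.H914 Pool.Agent.H914.VarClass Pool.Agent.H914.VarClass.Obj Pool.Agent.W492.BB
  Pool.Agent.W550.Corr Pool.Agent.TH133

open Pool.Agent.R904.Voi (det_of_types)

variable {k : Type u} [Field k] {𝒱 : VarClass k}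

variable {F : Type w} [Field F] {C : TheoryData.{u, v, w} 𝒱 F} [hC : IsCT C]
  {X Y Z W V T : 𝒱.Obj}

attribute [local instance] ctCommRing

include hC

/-- The determinant of symmetric or antisymmetric zero-cycles on `X × X` which come from the square
of a motive with vanishing permanents of the size `2 a + 2`. -/
theorem det_loop [CharZero F] {n a : ℕ} (η : ℤˣ) (hn : pairs η a < n) {p : C.A (X.prod X)}
    (hp : OddSym p a) {α : Fin n → C.A (X.prod X)}
    (hα : ∀ j, α j ∈ C.gr (X.prod X) ((X.dim : ℤ) + X.dim))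
    (hfix : ∀ j, C.comp p (α j) = α j) (hfix' : ∀ j, C.comp (α j) p = α j)
    (hsym : ∀ j, tp C (α j) = ((η : ℤ) : F) • α j) (x y : Fin n → (W ⟶ X)) :
    (Matrix.of fun i j => vl C (α j) (x i) (y i)).det = 0 := by
  classical
  let _ : Module ℚ (C.A W) := Module.compHom (C.A W) (algebraMap ℚ F)
  have hsm : ∀ (q : ℚ) (b : C.A W), q • b = (algebraMap ℚ F q) • b := fun _ _ => rfl
  let zz : Fin n ⊕ Fin n → (W ⟶ X) := Sum.elim x y
  let z : Equiv.Perm (Fin n ⊕ Fin n) → C.A W := fun π =>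
    ∏ j, vl C (α j) (zz (π (Sum.inl j))) (zz (π (Sum.inr j)))
  have key := alt_signs η hn z ?_
  · have h1 : ∀ (σ : Equiv.Perm (Fin n)) (ε : Fin n → Bool), z (wp σ ε) =
        (∏ j, (if ε j then ((η : ℤ) : ℚ) else 1)) • ∏ j, vl C (α j) (x (σ j)) (y (σ j)) := by
      intro σ ε
      have h2 : ∀ j, vl C (α j) (zz (wp σ ε (Sum.inl j))) (zz (wp σ ε (Sum.inr j))) =
          algebraMap F (C.A W) (algebraMap ℚ F (if ε j then ((η : ℤ) : ℚ) else 1)) *
            vl C (α j) (x (σ j)) (y (σ j)) := by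
        intro j
        rw [wp_inl, wp_inr]
        split_ifs with h3
        · have h4 : vl C (α j) (y (σ j)) (x (σ j)) = ((η : ℤ) : F) •
              vl C (α j) (x (σ j)) (y (σ j)) := by
            rw [← vl_tp, hsym, vl_smul]
          have h5 : algebraMap ℚ F ((η : ℤ) : ℚ) = ((η : ℤ) : F) := by simp
          rw [h5, ← Algebra.smul_def]
          exact h4
        · rw [map_one, map_one, one_mul]
          rfl
      simp only [z]
      rw [Finset.prod_congr rfl fun j _ => h2 j, Finset.prod_mul_distrib, ← map_prod, ← map_prod,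
        hsm, Algebra.smul_def]
    have h3 : ∀ (σ : Equiv.Perm (Fin n)) (ε : Fin n → Bool),
        (((Equiv.Perm.sign σ : ℤ) : ℚ) * ∏ j, (if ε j then ((η : ℤ) : ℚ) else 1)) • z (wp σ ε) =
          ((Equiv.Perm.sign σ : ℤ) : ℚ) • ∏ j, vl C (α j) (x (σ j)) (y (σ j)) := by
      intro σ ε
      have h4 : (∏ j, (if ε j then ((η : ℤ) : ℚ) else 1)) *
          (∏ j, (if ε j then ((η : ℤ) : ℚ) else 1)) = 1 := by
        rw [← Finset.prod_mul_distrib]
        refine Finset.prod_eq_one fun j _ => ?_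
        split_ifs
        · rcases Int.units_eq_one_or η with h5 | h5 <;> rw [h5] <;> norm_num
        · norm_num
      rw [h1, smul_smul, mul_assoc, h4, mul_one]
    have h5 : ∑ σ : Equiv.Perm (Fin n), ∑ ε : Fin n → Bool,
        ((Equiv.Perm.sign σ : ℤ) : ℚ) • ∏ j, vl C (α j) (x (σ j)) (y (σ j)) = 0 := by
      rw [← key]
      exact Finset.sum_congr rfl fun σ _ => Finset.sum_congr rfl fun ε _ => (h3 σ ε).symm
    have h6 : ∀ σ : Equiv.Perm (Fin n), ∑ ε : Fin n → Bool,
        ((Equiv.Perm.sign σ : ℤ) : ℚ) • ∏ j, vl C (α j) (x (σ j)) (y (σ j)) =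
          ((2 ^ n : ℕ) : ℚ) • (((Equiv.Perm.sign σ : ℤ) : ℚ) •
            ∏ j, vl C (α j) (x (σ j)) (y (σ j))) := by
      intro σ
      rw [Finset.sum_const, Finset.card_univ, Fintype.card_fun, Fintype.card_bool,
        Fintype.card_fin, ← Nat.cast_smul_eq_nsmul ℚ]
    rw [Finset.sum_congr rfl fun σ _ => h6 σ, ← Finset.smul_sum] at h5
    have h7 : (((2 ^ n : ℕ) : ℚ)) ≠ 0 := by positivity
    have h8 : ∑ σ : Equiv.Perm (Fin n), ((Equiv.Perm.sign σ : ℤ) : ℚ) •
        ∏ j, vl C (α j) (x (σ j)) (y (σ j)) = 0 := (smul_eq_zero.1 h5).resolve_left h7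
    rw [Matrix.det_apply, ← h8]
    refine Finset.sum_congr rfl fun σ _ => ?_
    rw [Units.smul_def, Int.cast_smul_eq_zsmul]
    rfl
  · intro A hA π
    let e : Fin (a + 1) ≃ A := (A.equivFinOfCardEq hA).symm
    exact relP hp.idem hp.symm hp.deg hp.pos hp.perm hα hfix hfix' A e (fun q => zz (π q))

/-- The determinant of classes on `X × X` which are sums of translates of symmetric or antisymmetric
classes of several types. -/
theorem det_loops [CharZero F] {n : ℕ} {Φ : Type*} [Fintype Φ] [DecidableEq Φ] (η : Φ → ℤˣ)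
    (γ : Φ → ℕ) (hn : ∑ φ, pairs (η φ) (γ φ) < n) {p : Φ → C.A (X.prod X)}
    (hp : ∀ φ, OddSym (p φ) (γ φ)) {β : Φ → Fin n → C.A (X.prod X)}
    (hβ : ∀ φ j, β φ j ∈ C.gr (X.prod X) ((X.dim : ℤ) + X.dim))
    (hp' : ∀ φ j, C.comp (p φ) (β φ j) = β φ j) (hq' : ∀ φ j, C.comp (β φ j) (p φ) = β φ j)
    (hsym : ∀ φ j, tp C (β φ j) = ((η φ : ℤ) : F) • β φ j)
    {κ : Type*} [Fintype κ] (c : Φ → κ → C.A W) (x : Φ → κ → Fin n → (W ⟶ X))
    (y : Φ → κ → Fin n → (W ⟶ X)) :
    (Matrix.of fun i j => ∑ φ, ∑ s, c φ s * vl C (β φ j) (x φ s i) (y φ s i)).det = 0 := by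
  classical
  let _ : Algebra ℚ (C.A W) := RingHom.toAlgebra ((algebraMap F (C.A W)).comp (algebraMap ℚ F))
  refine det_of_types (fun φ => pairs (η φ) (γ φ)) hn (fun φ => Matrix.of fun i j =>
    ∑ s, c φ s * vl C (β φ j) (x φ s i) (y φ s i)) fun φ J hJ r => ?_
  let e : J ≃ Fin J.card := J.equivFin
  rw [← Matrix.det_reindex_self e]
  have h2 := det_rows (c φ) (fun (i : Fin J.card) (s : κ) (j : Fin J.card) =>
    vl C (β φ (e.symm j)) (x φ s (r (e.symm i))) (y φ s (r (e.symm i)))) (fun s => by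
      exact det_loop (W := W) (η φ) hJ (hp φ) (α := fun j : Fin J.card => β φ (e.symm j))
        (fun j => hβ φ _) (fun j => hp' φ _) (fun j => hq' φ _) (fun j => hsym φ _)
        (fun i => x φ (s i) (r (e.symm i))) (fun i => y φ (s i) (r (e.symm i))))
  exact h2

end Pool.Agent.K4H60.Voi
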