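import Pool.Agent.K4H60.Voi.Grp

/-!
# Zero-cycles on product-quotient surfaces
-/

open CategoryTheory AlgebraicGeometry

universe u v w

namespace Pool.Agent.K4H60.Voi

set_option linter.unusedSectionVars false

open Pool.Agent.H914 Pool.Agent.H914.VarClass Pool.Agent.H914.VarClass.Obj Pool.Agent.W492.BB
  Pool.Agent.W550.Corr Pool.Agent.TH133

variable {k : Type u} [Field k] {𝒱 : VarClass k}

variable {F : Type w} [Field F] {C : TheoryData.{u, v, w} 𝒱 F} [hC : IsCT C]
  {X Y Z W V T : 𝒱.Obj}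

attribute [local instance] ctCommRing

variable {G : Type} [Group G] [Fintype G] [DecidableEq G] {a : G → (X ⟶ X)} {e : C.A X}
  {a' : G → (Y ⟶ Y)} {e' : C.A Y} {Φ : Type} [Fintype Φ] [DecidableEq Φ]

lemma uP_add (u v : G → F) : uP C a e (u + v) = uP C a e u + uP C a e v := by
  rw [uP, uP, uP, ← Finset.sum_add_distrib]
  refine Finset.sum_congr rfl fun g _ => ?_
  rw [Pi.add_apply, add_smul]

lemma uP_sum {ι : Type*} (s : Finset ι) (u : ι → G → F) :
    uP C a e (∑ i ∈ s, u i) = ∑ i ∈ s, uP C a e (u i) := by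
  classical
  induction s using Finset.induction_on with
  | empty => simp [uP]
  | insert i s hi ih => rw [Finset.sum_insert hi, Finset.sum_insert hi, uP_add, ih]

include hC

lemma uP_delta (ha : IsAct a) : uP C a e (fun g => if g = 1 then 1 else 0) = mid C e := by
  rw [uP, Finset.sum_eq_single 1]
  · rw [if_pos rfl, one_smul, gP_one ha]
  · intro g _ hg
    rw [if_neg hg, zero_smul]
  · intro h
    exact absurd (Finset.mem_univ _) h

/-- The value of the image of a class under elements of the group algebra on both sides. -/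
lemma vl_two (ha : IsAct a) (he : ∀ g, C.pull (a g) e = e) {b : C.A (X.prod Y)}
    (hb : C.comp (mid C e) b = b) (hb' : C.comp b (mid C e') = b)
    (r s : G → F) (x : W ⟶ X) (y : W ⟶ Y) :
    vl C (C.comp (C.comp (uP C a e r) b) (uP C a' e' s)) x y =
      ∑ g, ∑ h, (r g * s h) • vl C b (x ≫ a g⁻¹) (y ≫ a' h) := by
  have h1 : C.comp (C.comp (uP C a e r) b) (uP C a' e' s) =
      ∑ g, ∑ h, (r g * s h) • C.comp (C.comp (gP C a e g) b) (gP C a' e' h) := by
    rw [uP, sum_comp, sum_comp]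
    refine Finset.sum_congr rfl fun g _ => ?_
    rw [uP, comp_sum]
    refine Finset.sum_congr rfl fun h _ => ?_
    rw [smul_comp1, smul_comp1, comp_smul1, smul_smul]
  rw [h1, vl_sum]
  refine Finset.sum_congr rfl fun g _ => ?_
  rw [vl_sum]
  refine Finset.sum_congr rfl fun h _ => ?_
  rw [vl_smul, vl_comp_gP (by rw [comp_assoc, hb']), vl_gP_comp ha he hb]

/-- Determinants of invariant zero-cycles on `X × Y`. -/
theorem pq_det [CharZero F] {u : Φ → G → F} (hu : IsSystem u)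
    (hd : X.dim = 1) (hed : C.Deg 1 e) (he1 : DegOne C e) (ha : IsAct a)
    (he : ∀ g, C.pull (a g) e = e) (hd' : Y.dim = 1) (hed' : C.Deg 1 e') (he1' : DegOne C e')
    (ha' : IsAct a') (he' : ∀ g, C.pull (a' g) e' = e') {γ γ' : Φ → ℕ}
    (hk : ∀ φ, PermZero C (uP C a e (u φ)) (Fin (2 * γ φ + 1)))
    (hk' : ∀ φ, PermZero C (uP C a' e' (u φ)) (Fin (2 * γ' φ + 1)))
    {n : ℕ} (hn : ∑ φ, γ φ * γ' φ < n) {β : Fin n → C.A (X.prod Y)} (hβ : ∀ j, C.Deg 2 (β j))
    (hfix : ∀ j, C.comp (mid C e) (β j) = β j) (hfix' : ∀ j, C.comp (β j) (mid C e') = β j)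
    (hi : ∀ j g, C.pull (prodMap (a g) (a' g)) (β j) = β j) (t : Fin n → (W ⟶ X.prod Y)) :
    (Matrix.of fun i j => C.pull (t i) (β j)).det = 0 := by
  obtain ⟨m, r, s, hrs⟩ := hu.full
  -- the components
  let b : Φ → Fin n → C.A (X.prod Y) := fun φ j =>
    C.comp (C.comp (uP C a e (u φ)) (β j)) (uP C a' e' (u φ))
  have hmid : ∀ v : G → F, C.comp (mid C e) (uP C a e v) = uP C a e v := by
    intro v
    rw [uP, comp_sum]
    refine Finset.sum_congr rfl fun g _ => ?_
    rw [comp_smul1, ← gP_one ha, gP_comp hd hed he1 ha he, one_mul]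
  have hmid' : ∀ v : G → F, C.comp (uP C a' e' v) (mid C e') = uP C a' e' v := by
    intro v
    rw [uP, sum_comp]
    refine Finset.sum_congr rfl fun g _ => ?_
    rw [smul_comp1, ← gP_one ha', gP_comp hd' hed' he1' ha' he', mul_one]
  have hb1 : ∀ φ j, C.comp (mid C e) (b φ j) = b φ j := by
    intro φ j
    simp only [b]
    rw [← comp_assoc, ← comp_assoc, hmid]
  have hb2 : ∀ φ j, C.comp (b φ j) (mid C e') = b φ j := by
    intro φ j
    simp only [b]
    rw [comp_assoc, hmid']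
  have hidem : ∀ φ, C.comp (uP C a e (u φ)) (uP C a e (u φ)) = uP C a e (u φ) := by
    intro φ
    rw [uP_comp hd hed he1 ha he, hu.idem]
  have hidem' : ∀ φ, C.comp (uP C a' e' (u φ)) (uP C a' e' (u φ)) = uP C a' e' (u φ) := by
    intro φ
    rw [uP_comp hd' hed' he1' ha' he', hu.idem]
  have hsw : ∀ (v : G → F) j, C.comp (uP C a e v) (β j) = C.comp (β j) (uP C a' e' v) :=
    fun v j => uP_swap ha he (hfix j) (hfix' j) (hi j) v
  have hcomp : ∀ φ j, C.comp (uP C a e (u φ)) (β j) = b φ j := by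
    intro φ j
    simp only [b]
    rw [comp_assoc, ← hsw, ← comp_assoc, hidem]
  -- decomposition
  have hdec : ∀ j, β j = ∑ φ, ∑ i, C.comp (C.comp (uP C a e (r φ i)) (b φ j))
      (uP C a' e' (s φ i)) := by
    intro j
    have h1 : β j = C.comp (uP C a e (∑ φ, ∑ i, conv (conv (r φ i) (u φ)) (s φ i))) (β j) := by
      rw [hrs, uP_delta ha, hfix]
    rw [uP_sum, sum_comp] at h1
    refine h1.trans (Finset.sum_congr rfl fun φ _ => ?_)
    rw [uP_sum, sum_comp]
    refine Finset.sum_congr rfl fun i _ => ?_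
    rw [← uP_comp hd hed he1 ha he, ← uP_comp hd hed he1 ha he, comp_assoc, hsw, ← comp_assoc,
      comp_assoc C (uP C a e (r φ i)), hcomp]
  have hval : ∀ i j, C.pull (t i) (β j) = ∑ φ, ∑ p : Fin m × G × G,
      algebraMap F (C.A W) (r φ p.1 p.2.1 * s φ p.1 p.2.2) *
        vl C (b φ j) ((t i ≫ fst X Y) ≫ a p.2.1⁻¹) ((t i ≫ snd X Y) ≫ a' p.2.2) := by
    intro i j
    have h2 : Obj.lift (t i ≫ fst X Y) (t i ≫ snd X Y) = t i := by
      apply prod_ext <;> simp
    have h3 : C.pull (t i) (β j) = vl C (β j) (t i ≫ fst X Y) (t i ≫ snd X Y) := by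
      rw [vl, h2]
    rw [h3, hdec j, vl_sum]
    refine Finset.sum_congr rfl fun φ _ => ?_
    rw [vl_sum, Fintype.sum_prod_type]
    refine Finset.sum_congr rfl fun i' _ => ?_
    rw [vl_two ha he (hb1 φ j) (hb2 φ j), Fintype.sum_prod_type]
    refine Finset.sum_congr rfl fun g _ => ?_
    refine Finset.sum_congr rfl fun h _ => ?_
    rw [Algebra.smul_def]
  have hM : (Matrix.of fun i j => C.pull (t i) (β j)) = Matrix.of fun i j =>
      ∑ φ, ∑ p : Fin m × G × G,
      algebraMap F (C.A W) (r φ p.1 p.2.1 * s φ p.1 p.2.2) *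
        vl C (b φ j) ((t i ≫ fst X Y) ≫ a p.2.1⁻¹) ((t i ≫ snd X Y) ≫ a' p.2.2) := by
    funext i j
    exact hval i j
  rw [hM]
  have e1 : ∀ φ j, b φ j ∈ C.gr (X.prod Y) ((X.dim : ℤ) + Y.dim) := by
    intro φ j
    rw [← hcomp]
    have h0 : β j ∈ C.gr (X.prod Y) ((X.dim : ℤ) + 1) := by
      have h1 : (X.dim : ℤ) + 1 = 2 := by rw [hd]; norm_num
      rw [h1]
      exact hβ j
    have h1 := comp_mem (C := C) (e := 0) (e' := 1) (Γ := uP C a e (u φ)) (Δ := β j)
      (by rw [add_zero]; exact uP_mem hd hed _) h0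
    have h2 : (X.dim : ℤ) + Y.dim = X.dim + (0 + 1) := by rw [hd']; norm_num
    rw [h2]
    exact h1
  have e2 : ∀ φ j, C.comp (uP C a e (u φ)) (b φ j) = b φ j := by
    intro φ j
    simp only [b]
    rw [← comp_assoc, ← comp_assoc, hidem]
  have e3 : ∀ φ j, C.comp (b φ j) (uP C a' e' (u φ)) = b φ j := by
    intro φ j
    simp only [b]
    rw [comp_assoc, hidem']
  clear_value b
  exact det_types (C := C) (W := W) γ γ' hn (p := fun φ => uP C a e (u φ))
    (fun φ => uP_oddSym hd hed he1 ha he (hu.idem φ) (hu.symm φ) (hk φ))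
    (q := fun φ => uP C a' e' (u φ))
    (fun φ => uP_oddSym hd' hed' he1' ha' he' (hu.idem φ) (hu.symm φ) (hk' φ))
    (β := b) e1 e2 e3
    (fun φ (p : Fin m × G × G) => algebraMap F (C.A W) (r φ p.1 p.2.1 * s φ p.1 p.2.2))
    (fun φ p i => (t i ≫ fst X Y) ≫ a p.2.1⁻¹) (fun φ p i => (t i ≫ snd X Y) ≫ a' p.2.2)

end Pool.Agent.K4H60.Voi
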