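import Pool.Agent.K4H60.Voi.CT

/-!
# Hafnians and symmetrizations (after `Pool.Agent.R904.Voi`)
-/

open CategoryTheory AlgebraicGeometry

universe u v w

namespace Pool.Agent.K4H60.Voi

open Pool.Agent.H914 Pool.Agent.H914.VarClass Pool.Agent.H914.VarClass.Obj Pool.Agent.W492.BB
  Pool.Agent.W550.Corr Pool.Agent.TH133

open Pool.Agent.R904.Voi (prt idx app_inv prt_ne idx_spec idx_eq Good good_or good_one)

variable {k : Type u} [Field k] {𝒱 : VarClass k}

variable {F : Type w} [Field F] {C : TheoryData.{u, v, w} 𝒱 F} [hC : IsCT C]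
  {X Y Z W V T : 𝒱.Obj}

attribute [local instance] ctCommRing

/-- The permanents of the matrices `p (x i, y j)` are zero. -/
def PermZero {F : Type w} [Field F] (C : TheoryData.{u, v, w} 𝒱 F) [IsCT C] {X : 𝒱.Obj}
    (p : C.A (X.prod X)) (ι : Type) [Fintype ι] [DecidableEq ι] : Prop :=
  ∀ (W : 𝒱.Obj) (x y : ι → (W ⟶ X)), ∑ σ : Equiv.Perm ι, ∏ i, vl C p (x i) (y (σ i)) = 0

include hC

lemma vl_symm {p : C.A (X.prod X)} (hs : tp C p = p) (x y : W ⟶ X) :
    vl C p x y = vl C p y x := by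
  rw [← vl_tp, hs]

lemma PermZero.equiv {ι κ : Type} [Fintype ι] [DecidableEq ι] [Fintype κ] [DecidableEq κ]
    {p : C.A (X.prod X)} (h : PermZero C p ι) (e : ι ≃ κ) : PermZero C p κ := by
  intro W x y
  have h1 := h W (fun i => x (e i)) (fun i => y (e i))
  refine Eq.trans ?_ h1
  refine (Fintype.sum_equiv (Equiv.permCongr e) _ _ fun σ => ?_).symm
  refine Fintype.prod_equiv e _ _ fun i => ?_
  simp [Equiv.permCongr_apply]

lemma PermZero.succ {n : ℕ} {p : C.A (X.prod X)} (h : PermZero C p (Fin n)) :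
    PermZero C p (Fin (n + 1)) := by
  intro W x y
  rw [← Equiv.sum_comp Equiv.Perm.decomposeFin.symm, Fintype.sum_prod_type]
  refine Finset.sum_eq_zero fun q _ => ?_
  have h1 := h W (fun i => x i.succ) (fun j => y (Equiv.swap 0 q j.succ))
  have h2 : ∀ τ : Equiv.Perm (Fin n), ∏ i, vl C p (x i)
      (y (Equiv.Perm.decomposeFin.symm (q, τ) i)) = vl C p (x 0) (y q) *
        ∏ i : Fin n, vl C p (x i.succ) (y (Equiv.swap 0 q (τ i).succ)) := by
    intro τ
    rw [Fin.prod_univ_succ, Equiv.Perm.decomposeFin_symm_apply_zero]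
    congr 1
    refine Finset.prod_congr rfl fun i _ => ?_
    rw [Equiv.Perm.decomposeFin_symm_apply_succ]
  rw [Finset.sum_congr rfl fun τ _ => h2 τ, ← Finset.mul_sum, h1, mul_zero]

/-- Two values at a common variable point, glued by a third one. -/
lemma glue {p : C.A (X.prod X)} (hp : C.comp p p = p) (hs : tp C p = p) (a b : W ⟶ X) :
    C.push (fst W (X.prod X)) (vl C p (snd W (X.prod X) ≫ fst X X) (fst W (X.prod X) ≫ a) *
      vl C p (snd W (X.prod X) ≫ snd X X) (fst W (X.prod X) ≫ b) *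
      vl C p (snd W (X.prod X) ≫ fst X X) (snd W (X.prod X) ≫ snd X X)) = vl C p a b := by
  have e1 : fst W (X.prod X) = aJ W X X ≫ fst (W.prod X) X ≫ fst W X := by
    simp [aJ]
  have e2 : aI W X X ≫ snd W (X.prod X) ≫ fst X X = fst (W.prod X) X ≫ snd W X := by
    simp [aI]
  have e3 : aI W X X ≫ snd W (X.prod X) ≫ snd X X = snd (W.prod X) X := by
    simp [aI]
  have e4 : aI W X X ≫ fst W (X.prod X) = fst (W.prod X) X ≫ fst W X := by
    simp [aI]
  have e5 : ∀ c : W ⟶ X, aI W X X ≫ fst W (X.prod X) ≫ c =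
      fst (W.prod X) X ≫ fst W X ≫ c := by
    intro c
    rw [← Category.assoc, e4, Category.assoc]
  have h1 : ∀ h : C.A (W.prod (X.prod X)), C.push (fst W (X.prod X)) h =
      C.push (fst W X) (C.push (fst (W.prod X) X) (C.pull (aI W X X) h)) := by
    intro h
    rw [pull_iso C (aI W X X) (aJ W X X) aI_aJ aJ_aI, ← C.push_comp, ← C.push_comp, ← e1]
  rw [h1, map_mul (C.pull (aI W X X)), map_mul (C.pull (aI W X X)), pull_vl, pull_vl, pull_vl, e2,
    e3, e5, e5]
  have h2 : vl C p (fst (W.prod X) X ≫ snd W X) (fst (W.prod X) X ≫ fst W X ≫ a) *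
      vl C p (snd (W.prod X) X) (fst (W.prod X) X ≫ fst W X ≫ b) *
      vl C p (fst (W.prod X) X ≫ snd W X) (snd (W.prod X) X) =
      C.pull (fst (W.prod X) X) (vl C p (snd W X) (fst W X ≫ a)) *
      (vl C p (fst (W.prod X) X ≫ snd W X) (snd (W.prod X) X) *
        vl C p (snd (W.prod X) X) (fst (W.prod X) X ≫ fst W X ≫ b)) := by
    rw [pull_vl]
    ring
  rw [h2, C.proj_left, ← vl_comp, hp, vl_symm hs (snd W X) (fst W X ≫ a), ← vl_comp, hp]

/-- The sum over all perfect matchings is zero. -/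
theorem haf {m : ℕ} {p : C.A (X.prod X)} (hp : C.comp p p = p) (hs : tp C p = p)
    (h : PermZero C p (Fin m ⊕ Fin m)) (y : Fin m ⊕ Fin m → (W ⟶ X)) :
    ∑ σ : Equiv.Perm (Fin m ⊕ Fin m), ∏ j : Fin m,
      vl C p (y (σ (Sum.inl j))) (y (σ (Sum.inr j))) = 0 := by
  obtain ⟨P, f, t, hP⟩ := exists_fub C W (X.prod X) m
  let x : Fin m ⊕ Fin m → (P ⟶ X) := Sum.elim (fun j => t j ≫ fst X X) (fun j => t j ≫ snd X X)
  have h1 := h P x (fun i => f ≫ y i)
  have h2 : C.push f ((∑ σ : Equiv.Perm (Fin m ⊕ Fin m), ∏ i, vl C p (x i) (f ≫ y (σ i))) *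
      ∏ j : Fin m, vl C p (x (Sum.inl j)) (x (Sum.inr j))) = 0 := by
    rw [h1, zero_mul, map_zero]
  rw [Finset.sum_mul, map_sum] at h2
  refine Eq.trans (Finset.sum_congr rfl fun σ _ => ?_) h2
  have h3 : (∏ i, vl C p (x i) (f ≫ y (σ i))) * ∏ j : Fin m, vl C p (x (Sum.inl j))
      (x (Sum.inr j)) = ∏ j : Fin m, vl C (vl C p (snd W (X.prod X) ≫ fst X X)
        (fst W (X.prod X) ≫ y (σ (Sum.inl j))) *
        vl C p (snd W (X.prod X) ≫ snd X X) (fst W (X.prod X) ≫ y (σ (Sum.inr j))) *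
        vl C p (snd W (X.prod X) ≫ fst X X) (snd W (X.prod X) ≫ snd X X)) f (t j) := by
    rw [Fintype.prod_sum_type, ← Finset.prod_mul_distrib, ← Finset.prod_mul_distrib]
    refine Finset.prod_congr rfl fun j _ => ?_
    have e1 : Obj.lift f (t j) ≫ snd W (X.prod X) ≫ fst X X = x (Sum.inl j) := by
      rw [← Category.assoc, lift_snd]
      rfl
    have e2 : Obj.lift f (t j) ≫ snd W (X.prod X) ≫ snd X X = x (Sum.inr j) := by
      rw [← Category.assoc, lift_snd]
      rfl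
    have e3 : ∀ c : W ⟶ X, Obj.lift f (t j) ≫ fst W (X.prod X) ≫ c = f ≫ c := by
      intro c
      rw [← Category.assoc, lift_fst]
    conv_rhs => rw [vl, map_mul, map_mul, pull_vl, pull_vl, pull_vl, e1, e2, e3, e3]
  rw [h3, hP]
  exact Finset.prod_congr rfl fun j _ => (glue hp hs _ _).symm

/-- The factor of the pair of `i`. -/
lemma factor {m : ℕ} {p : C.A (X.prod X)} (hs : tp C p = p) (z : Fin m ⊕ Fin m → (W ⟶ X))
    (σ : Equiv.Perm (Fin m ⊕ Fin m)) (i : Fin m ⊕ Fin m) :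
    vl C p (z (σ (Sum.inl (idx σ i)))) (z (σ (Sum.inr (idx σ i)))) =
      vl C p (z i) (z (prt σ i)) := by
  rcases idx_spec σ i with ⟨h1, h2⟩ | ⟨h1, h2⟩
  · rw [h1, h2]
  · rw [h1, h2, vl_symm hs]

/-- A product of too many factors. -/
lemma vanish {p : C.A (X.prod X)} (hp : p ∈ C.gr (X.prod X) X.dim) (hd : 0 < X.dim)
    {a b : C.A (X.prod Y)} (ha : a ∈ C.gr (X.prod Y) ((X.dim : ℤ) + Y.dim))
    (hb : b ∈ C.gr (X.prod Y) ((X.dim : ℤ) + Y.dim)) (x x' : W ⟶ X) (y y' : W ⟶ Y) :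
    vl C p x x' * (vl C a x y * vl C b x' y') = 0 := by
  set g : W ⟶ (X.prod Y).prod (X.prod Y) := Obj.lift (Obj.lift x y) (Obj.lift x' y') with hg
  have h0 : vl C p (fst (X.prod Y) (X.prod Y) ≫ fst X Y) (snd (X.prod Y) (X.prod Y) ≫ fst X Y) *
      (C.pull (fst (X.prod Y) (X.prod Y)) a * C.pull (snd (X.prod Y) (X.prod Y)) b) = 0 := by
    apply hC.gr_top _ (X.dim + ((X.dim + Y.dim) + (X.dim + Y.dim)))
    · exact C.mul_mem (vl_mem hp _ _) (C.mul_mem (C.pull_mem _ ha) (C.pull_mem _ hb))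
    · rw [dim_prod, dim_prod]
      push_cast
      have : (0 : ℤ) < X.dim := by exact_mod_cast hd
      linarith
  have h1 := congrArg (C.pull g) h0
  rw [map_zero, map_mul, map_mul, pull_vl, ← C.pull_comp, ← C.pull_comp] at h1
  have e1 : g ≫ fst (X.prod Y) (X.prod Y) = Obj.lift x y := by rw [hg, lift_fst]
  have e2 : g ≫ snd (X.prod Y) (X.prod Y) = Obj.lift x' y' := by rw [hg, lift_snd]
  have e3 : g ≫ fst (X.prod Y) (X.prod Y) ≫ fst X Y = x := by
    rw [← Category.assoc, e1, lift_fst]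
  have e4 : g ≫ snd (X.prod Y) (X.prod Y) ≫ fst X Y = x' := by
    rw [← Category.assoc, e2, lift_fst]
  rw [e1, e2, e3, e4] at h1
  exact h1

/-- The symmetrization in the first factors of a product of zero-cycles which come from a motive
with vanishing permanents is zero. -/
theorem rel [CharZero F] {m : ℕ} {p : C.A (X.prod X)} (hp : C.comp p p = p) (hs : tp C p = p)
    (hpd : p ∈ C.gr (X.prod X) X.dim) (hd : 0 < X.dim) (h : PermZero C p (Fin m ⊕ Fin m))
    {α : Fin m → C.A (X.prod Y)} (hα : ∀ j, α j ∈ C.gr (X.prod Y) ((X.dim : ℤ) + Y.dim))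
    (hfix : ∀ j, C.comp p (α j) = α j) (x : Fin m → (W ⟶ X)) (y : Fin m → (W ⟶ Y)) :
    ∑ ρ : Equiv.Perm (Fin m), ∏ j, vl C (α j) (x (ρ j)) (y j) = 0 := by
  classical
  obtain ⟨P, f, t, hP⟩ := exists_fub (C := C) W X m
  -- the terms for given `x`
  let A : C.A P := ∏ j, vl C (α j) (t j) (f ≫ y j)
  let z : (Fin m → (W ⟶ X)) → Fin m ⊕ Fin m → (P ⟶ X) := fun x => Sum.elim (fun j => f ≫ x j) t
  let term : (Fin m → (W ⟶ X)) → Equiv.Perm (Fin m ⊕ Fin m) → C.A W := fun x σ =>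
    C.push f ((∏ j : Fin m, vl C p (z x (σ (Sum.inl j))) (z x (σ (Sum.inr j)))) * A)
  have hsum : ∀ x, ∑ σ, term x σ = 0 := by
    intro x
    have h1 := haf hp hs h (z x)
    simp only [term]
    rw [← map_sum, ← Finset.sum_mul, h1, zero_mul, map_zero]
  have hbad : ∀ (x) (σ : Equiv.Perm (Fin m ⊕ Fin m)), ¬ Good σ → term x σ = 0 := by
    intro x σ hσ
    rcases good_or σ with h1 | ⟨b, b', hbb, h1⟩
    · exact absurd h1 hσ
    have h2 := factor hs (z x) σ (Sum.inr b)
    rw [h1] at h2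
    have h3 : (∏ j : Fin m, vl C p (z x (σ (Sum.inl j))) (z x (σ (Sum.inr j)))) * A = 0 := by
      have hb' : b' ∈ Finset.univ.erase b := Finset.mem_erase.2 ⟨hbb.symm, Finset.mem_univ _⟩
      simp only [A]
      rw [← Finset.mul_prod_erase Finset.univ _ (Finset.mem_univ (idx σ (Sum.inr b))), h2,
        ← Finset.mul_prod_erase Finset.univ (fun j => vl C (α j) (t j) (f ≫ y j))
          (Finset.mem_univ b), ← Finset.mul_prod_erase _ _ hb']
      have h4 := vanish hpd hd (hα b) (hα b') (t b) (t b') (f ≫ y b) (f ≫ y b')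
      have e1 : z x (Sum.inr b) = t b := rfl
      have e2 : z x (Sum.inr b') = t b' := rfl
      rw [e1, e2]
      linear_combination h4 * ((∏ j ∈ Finset.univ.erase (idx σ (Sum.inr b)),
        vl C p (z x (σ (Sum.inl j))) (z x (σ (Sum.inr j)))) *
        ∏ j ∈ (Finset.univ.erase b).erase b', vl C (α j) (t j) (f ≫ y j))
    simp only [term]
    rw [h3, map_zero]
  have hgood : ∀ (x) (σ : Equiv.Perm (Fin m ⊕ Fin m)) (ρ : Equiv.Perm (Fin m)),
      (∀ b, prt σ (Sum.inr b) = Sum.inl (ρ b)) → term x σ = ∏ j, vl C (α j) (x (ρ j)) (y j) := by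
    intro x σ ρ hρ
    have hinj : Function.Injective fun b : Fin m => idx σ (Sum.inr b) := by
      intro b b' hb
      by_contra hne
      have h1 := idx_eq σ hb (fun h => hne (Sum.inr_injective h))
      rw [hρ] at h1
      cases h1
    let e : Fin m ≃ Fin m := Equiv.ofBijective _ (Finite.injective_iff_bijective.1 hinj)
    have h1 : (∏ j : Fin m, vl C p (z x (σ (Sum.inl j))) (z x (σ (Sum.inr j)))) =
        ∏ b, vl C p (t b) (f ≫ x (ρ b)) := by
      rw [← Equiv.prod_comp e]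
      refine Finset.prod_congr rfl fun b _ => ?_
      have h2 := factor hs (z x) σ (Sum.inr b)
      rw [hρ] at h2
      exact h2
    simp only [term, A]
    rw [h1, ← Finset.prod_mul_distrib]
    have h2 : ∀ b : Fin m, vl C p (t b) (f ≫ x (ρ b)) * vl C (α b) (t b) (f ≫ y b) =
        vl C (vl C p (snd W X) (fst W X ≫ x (ρ b)) * vl C (α b) (snd W X) (fst W X ≫ y b)) f
          (t b) := by
      intro b
      conv_rhs => rw [vl, map_mul, pull_vl, pull_vl, lift_snd, ← Category.assoc, lift_fst,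
        ← Category.assoc, lift_fst]
    rw [Finset.prod_congr rfl fun b _ => h2 b, hP]
    refine Finset.prod_congr rfl fun b _ => ?_
    rw [vl_symm hs, ← vl_comp, hfix]
  have hterm : ∀ (x) (σ : Equiv.Perm (Fin m ⊕ Fin m)), term x σ = if hg : Good σ then
      ∏ j, vl C (α j) (x (hg.choose j)) (y j) else 0 := by
    intro x σ
    split_ifs with hg
    · exact hgood x σ _ hg.choose_spec
    · exact hbad x σ hg
  -- the sum over all permutations of `x`
  have h1 : ∑ g : Equiv.Perm (Fin m), ∑ σ : Equiv.Perm (Fin m ⊕ Fin m),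
      term (fun j => x (g j)) σ = 0 := Finset.sum_eq_zero fun g _ => hsum _
  rw [Finset.sum_comm] at h1
  have h2 : ∀ σ : Equiv.Perm (Fin m ⊕ Fin m), ∑ g : Equiv.Perm (Fin m),
      term (fun j => x (g j)) σ = (if Good σ then (1 : F) else 0) •
        ∑ ρ : Equiv.Perm (Fin m), ∏ j, vl C (α j) (x (ρ j)) (y j) := by
    intro σ
    split_ifs with hg
    · rw [one_smul]
      have h3 : ∀ g : Equiv.Perm (Fin m), term (fun j => x (g j)) σ =
          ∏ j, vl C (α j) (x ((g * hg.choose) j)) (y j) := by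
        intro g
        rw [hterm, dif_pos hg]
        rfl
      rw [Finset.sum_congr rfl fun g _ => h3 g]
      exact Equiv.sum_comp (Equiv.mulRight hg.choose)
        (fun ρ : Equiv.Perm (Fin m) => ∏ j, vl C (α j) (x (ρ j)) (y j))
    · rw [zero_smul]
      refine Finset.sum_eq_zero fun g _ => ?_
      rw [hterm, dif_neg hg]
  rw [Finset.sum_congr rfl fun σ _ => h2 σ, ← Finset.sum_smul] at h1
  have h3 : (∑ σ : Equiv.Perm (Fin m ⊕ Fin m), (if Good σ then (1 : F) else 0)) ≠ 0 := by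
    rw [Finset.sum_boole, Nat.cast_ne_zero, Finset.card_ne_zero]
    exact ⟨1, Finset.mem_filter.2 ⟨Finset.mem_univ _, good_one⟩⟩
  exact (smul_eq_zero.1 h1).resolve_left h3

/-- A symmetric idempotent correspondence of degree zero for which the permanents of size `2 a + 1`
vanish, on a variety of positive dimension. -/
structure OddSym (p : C.A (X.prod X)) (a : ℕ) : Prop where
  idem : C.comp p p = p
  symm : tp C p = p
  deg : p ∈ C.gr (X.prod X) X.dim
  pos : 0 < X.dim
  perm : PermZero C p (Fin (a + 1) ⊕ Fin (a + 1))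

lemma permZero_double {p : C.A (X.prod X)} {a : ℕ} (h : PermZero C p (Fin (2 * a + 1))) :
    PermZero C p (Fin (a + 1) ⊕ Fin (a + 1)) := by
  have h1 := h.succ
  refine h1.equiv ((finCongr ?_).trans finSumFinEquiv.symm)
  ring

/-- The symmetrization over the positions in `A`. -/
lemma rel_sub [CharZero F] {n a : ℕ} {p : C.A (X.prod X)} (hp : OddSym p a) {α : Fin n → C.A (X.prod Y)}
    (hα : ∀ j, α j ∈ C.gr (X.prod Y) ((X.dim : ℤ) + Y.dim))
    (hfix : ∀ j, C.comp p (α j) = α j) (x : Fin n → (W ⟶ X)) (y : Fin n → (W ⟶ Y))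
    (A : Finset (Fin n)) (hA : A.card = a + 1) :
    ∑ ρ : Equiv.Perm A, ∏ j, vl C (α j) (x (Equiv.Perm.ofSubtype ρ j)) (y j) = 0 := by
  classical
  let e : Fin (a + 1) ≃ A := (A.equivFinOfCardEq hA).symm
  have h1 := rel hp.idem hp.symm hp.deg hp.pos hp.perm (α := fun i => α (e i)) (fun i => hα _)
    (fun i => hfix _) (fun i => x (e i)) (fun i => y (e i))
  rw [← Equiv.sum_comp e.permCongr]
  have h2 : ∀ ρ : Equiv.Perm (Fin (a + 1)),
      ∏ j, vl C (α j) (x (Equiv.Perm.ofSubtype (e.permCongr ρ) j)) (y j) =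
        (∏ i, vl C (α (e i)) (x (e (ρ i))) (y (e i))) * ∏ j ∈ Aᶜ, vl C (α j) (x j) (y j) := by
    intro ρ
    rw [← Finset.prod_mul_prod_compl A]
    congr 1
    · rw [← Finset.prod_coe_sort, ← Equiv.prod_comp e]
      refine Finset.prod_congr rfl fun i _ => ?_
      rw [Equiv.Perm.ofSubtype_apply_coe, Equiv.permCongr_apply, Equiv.symm_apply_apply]
    · refine Finset.prod_congr rfl fun j hj => ?_
      rw [Equiv.Perm.ofSubtype_apply_of_not_mem _ (Finset.mem_compl.1 hj)]
  rw [Finset.sum_congr rfl fun ρ _ => h2 ρ, ← Finset.sum_mul, h1, zero_mul]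

end Pool.Agent.K4H60.Voi
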