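import Pool.Agent.K4H60.Voi.Loop
import Pool.Agent.K4H60.Voi.Fin

/-!
# Zero-cycles on quotients of squares of curves
-/

open CategoryTheory AlgebraicGeometry
open scoped TensorProduct

universe u v w

namespace Pool.Agent.K4H60.Voi

set_option linter.unusedSectionVars false

open Pool.Agent.H914 Pool.Agent.H914.VarClass Pool.Agent.H914.VarClass.Obj Pool.Agent.W492.BB
  Pool.Agent.W550.Corr Pool.Agent.TH133 Pool.Agent.Y152.AS

variable {k : Type u} [Field k] {𝒱 : VarClass k}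

attribute [local instance] ctCommRing

section generic

variable {F : Type w} [Field F] {C : TheoryData.{u, v, w} 𝒱 F} [hC : IsCT C]
  {X Y Z W V T : 𝒱.Obj}

variable {G : Type} [Group G] [Fintype G] [DecidableEq G] {a : G → (X ⟶ X)} {e : C.A X}
  {Φ : Type} [Fintype Φ] [DecidableEq Φ]

include hC

lemma gP_uP (hd : X.dim = 1) (hed : C.Deg 1 e) (he1 : DegOne C e) (ha : IsAct a)
    (he : ∀ g, C.pull (a g) e = e) (c : G) (u : G → F) :
    C.comp (gP C a e c) (uP C a e u) = uP C a e (fun g => u (c⁻¹ * g)) := by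
  rw [uP, comp_sum, uP]
  refine Fintype.sum_equiv (Equiv.mulLeft c) _ _ fun g => ?_
  rw [comp_smul1, gP_comp hd hed he1 ha he, Equiv.coe_mulLeft, inv_mul_cancel_left]

/-- The transpose of a class invariant under `(x, y) ↦ (y, c x)`. -/
lemma tp_swap {β : C.A (X.prod X)} (hβ' : C.comp β (mid C e) = β) {c : G}
    (hsw : C.pull (Obj.lift (snd X X) (fst X X ≫ a c)) β = β) :
    tp C β = C.comp β (gP C a e c) := by
  apply ext_vl
  intro W x y
  rw [vl_comp_gP hβ', vl_tp]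
  conv_lhs => rw [← hsw, vl, ← C.pull_comp, comp_lift, lift_snd, ← Category.assoc, lift_fst]
  rfl

/-- Determinants of zero-cycles on `X × X` which are invariant under the group `G` and under
`(x, y) ↦ (y, c x)`. -/
theorem sq_det [CharZero F] {u : Φ → G → F} (hu : IsSystem u)
    (hd : X.dim = 1) (hed : C.Deg 1 e) (he1 : DegOne C e) (ha : IsAct a)
    (he : ∀ g, C.pull (a g) e = e) {γ : Φ → ℕ}
    (hk : ∀ φ, PermZero C (uP C a e (u φ)) (Fin (2 * γ φ + 1))) {c : G} {η : Φ → ℤˣ}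
    (hc : ∀ φ g, u φ (c⁻¹ * g) = ((η φ : ℤ) : F) * u φ g)
    {n : ℕ} (hn : ∑ φ, pairs (η φ) (γ φ) < n) {β : Fin n → C.A (X.prod X)}
    (hβ : ∀ j, C.Deg 2 (β j))
    (hfix : ∀ j, C.comp (mid C e) (β j) = β j) (hfix' : ∀ j, C.comp (β j) (mid C e) = β j)
    (hi : ∀ j g, C.pull (prodMap (a g) (a g)) (β j) = β j)
    (hsp : ∀ j, C.pull (Obj.lift (snd X X) (fst X X ≫ a c)) (β j) = β j)
    (t : Fin n → (W ⟶ X.prod X)) :
    (Matrix.of fun i j => C.pull (t i) (β j)).det = 0 := by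
  obtain ⟨m, r, s, hrs⟩ := hu.full
  -- the components
  let b : Φ → Fin n → C.A (X.prod X) := fun φ j =>
    C.comp (C.comp (uP C a e (u φ)) (β j)) (uP C a e (u φ))
  have hmid : ∀ v : G → F, C.comp (mid C e) (uP C a e v) = uP C a e v := by
    intro v
    rw [uP, comp_sum]
    refine Finset.sum_congr rfl fun g _ => ?_
    rw [comp_smul1, ← gP_one ha, gP_comp hd hed he1 ha he, one_mul]
  have hmid' : ∀ v : G → F, C.comp (uP C a e v) (mid C e) = uP C a e v := by
    intro v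
    rw [uP, sum_comp]
    refine Finset.sum_congr rfl fun g _ => ?_
    rw [smul_comp1, ← gP_one ha, gP_comp hd hed he1 ha he, mul_one]
  have hb1 : ∀ φ j, C.comp (mid C e) (b φ j) = b φ j := by
    intro φ j
    simp only [b]
    rw [← comp_assoc, ← comp_assoc, hmid]
  have hb2 : ∀ φ j, C.comp (b φ j) (mid C e) = b φ j := by
    intro φ j
    simp only [b]
    rw [comp_assoc, hmid']
  have hidem : ∀ φ, C.comp (uP C a e (u φ)) (uP C a e (u φ)) = uP C a e (u φ) := by
    intro φ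
    rw [uP_comp hd hed he1 ha he, hu.idem]
  have hidem' : ∀ φ, C.comp (uP C a e (u φ)) (uP C a e (u φ)) = uP C a e (u φ) := by
    intro φ
    rw [uP_comp hd hed he1 ha he, hu.idem]
  have hsw : ∀ (v : G → F) j, C.comp (uP C a e v) (β j) = C.comp (β j) (uP C a e v) :=
    fun v j => uP_swap ha he (hfix j) (hfix' j) (hi j) v
  have hcomp : ∀ φ j, C.comp (uP C a e (u φ)) (β j) = b φ j := by
    intro φ j
    simp only [b]
    rw [comp_assoc, ← hsw, ← comp_assoc, hidem]
  -- decomposition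
  have hdec : ∀ j, β j = ∑ φ, ∑ i, C.comp (C.comp (uP C a e (r φ i)) (b φ j))
      (uP C a e (s φ i)) := by
    intro j
    have h1 : β j = C.comp (uP C a e (∑ φ, ∑ i, conv (conv (r φ i) (u φ)) (s φ i))) (β j) := by
      rw [hrs, uP_delta ha, hfix]
    rw [uP_sum, sum_comp] at h1
    refine h1.trans (Finset.sum_congr rfl fun φ _ => ?_)
    rw [uP_sum, sum_comp]
    refine Finset.sum_congr rfl fun i _ => ?_
    rw [← uP_comp hd hed he1 ha he, ← uP_comp hd hed he1 ha he, comp_assoc, hsw, ← comp_assoc,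
      comp_assoc C (uP C a e (r φ i)), hcomp]
  have hval : ∀ i j, C.pull (t i) (β j) = ∑ φ, ∑ p : Fin m × G × G,
      algebraMap F (C.A W) (r φ p.1 p.2.1 * s φ p.1 p.2.2) *
        vl C (b φ j) ((t i ≫ fst X X) ≫ a p.2.1⁻¹) ((t i ≫ snd X X) ≫ a p.2.2) := by
    intro i j
    have h2 : Obj.lift (t i ≫ fst X X) (t i ≫ snd X X) = t i := by
      apply prod_ext <;> simp
    have h3 : C.pull (t i) (β j) = vl C (β j) (t i ≫ fst X X) (t i ≫ snd X X) := by
      rw [vl, h2]
    rw [h3, hdec j, vl_sum]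
    refine Finset.sum_congr rfl fun φ _ => ?_
    rw [vl_sum, Fintype.sum_prod_type]
    refine Finset.sum_congr rfl fun i' _ => ?_
    rw [vl_two ha he (hb1 φ j) (hb2 φ j), Fintype.sum_prod_type]
    refine Finset.sum_congr rfl fun g _ => ?_
    refine Finset.sum_congr rfl fun h _ => ?_
    rw [Algebra.smul_def]
  have hM : (Matrix.of fun i j => C.pull (t i) (β j)) = Matrix.of fun i j =>
      ∑ φ, ∑ p : Fin m × G × G,
      algebraMap F (C.A W) (r φ p.1 p.2.1 * s φ p.1 p.2.2) *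
        vl C (b φ j) ((t i ≫ fst X X) ≫ a p.2.1⁻¹) ((t i ≫ snd X X) ≫ a p.2.2) := by
    funext i j
    exact hval i j
  rw [hM]
  have e1 : ∀ φ j, b φ j ∈ C.gr (X.prod X) ((X.dim : ℤ) + X.dim) := by
    intro φ j
    rw [← hcomp]
    have h0 : β j ∈ C.gr (X.prod X) ((X.dim : ℤ) + 1) := by
      have h1 : (X.dim : ℤ) + 1 = 2 := by rw [hd]; norm_num
      rw [h1]
      exact hβ j
    have h1 := comp_mem (C := C) (e := 0) (e' := 1) (Γ := uP C a e (u φ)) (Δ := β j)
      (by rw [add_zero]; exact uP_mem hd hed _) h0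
    have h2 : (X.dim : ℤ) + X.dim = X.dim + (0 + 1) := by rw [hd]; norm_num
    rw [h2]
    exact h1
  have e2 : ∀ φ j, C.comp (uP C a e (u φ)) (b φ j) = b φ j := by
    intro φ j
    simp only [b]
    rw [← comp_assoc, ← comp_assoc, hidem]
  have e3 : ∀ φ j, C.comp (b φ j) (uP C a e (u φ)) = b φ j := by
    intro φ j
    simp only [b]
    rw [comp_assoc, hidem']
  have e4 : ∀ φ j, tp C (b φ j) = ((η φ : ℤ) : F) • b φ j := by
    intro φ j
    have h1 : C.comp (gP C a e c) (uP C a e (u φ)) = ((η φ : ℤ) : F) • uP C a e (u φ) := by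
      rw [gP_uP hd hed he1 ha he, uP, uP, Finset.smul_sum]
      refine Finset.sum_congr rfl fun g _ => ?_
      rw [hc, smul_smul]
    simp only [b]
    rw [tp_comp C hC.comm, tp_comp C hC.comm, uP_tp ha he (hu.symm φ), tp_swap (hfix' j) (hsp j),
      comp_assoc, h1, comp_smul1, comp_smul1, ← comp_assoc]
  clear_value b
  exact det_loops (C := C) (W := W) η γ hn (p := fun φ => uP C a e (u φ))
    (fun φ => uP_oddSym hd hed he1 ha he (hu.idem φ) (hu.symm φ) (hk φ))
    (β := b) e1 e2 e3 e4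
    (fun φ (p : Fin m × G × G) => algebraMap F (C.A W) (r φ p.1 p.2.1 * s φ p.1 p.2.2))
    (fun φ p i => (t i ≫ fst X X) ≫ a p.2.1⁻¹) (fun φ p i => (t i ≫ snd X X) ≫ a p.2.2)

end generic

section transfer

variable {C : TheoryData.{u, v, 0} 𝒱 ℚ} [hC : IsChowProj C] (K : Type) [Field K] [Algebra ℚ K]
  {X Y Z W V T S : 𝒱.Obj}

include hC

variable {G : Type} [Group G] [Fintype G] [DecidableEq G] {a : G → (X ⟶ X)} {e : C.A X}
  {Φ : Type} [Fintype Φ] [DecidableEq Φ]

/-- Determinants of invariant classes in the Albanese kernel of `X × X`. -/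
theorem sq_chow {u : Φ → G → K} (hu : IsSystem u)
    (hd : X.dim = 1) (hed : C.Deg 1 e) (he1 : HasDegree C e 1) (ha : IsAct a)
    (he : ∀ g, C.pull (a g) e = e) {γ : Φ → ℕ}
    (hk : ∀ φ, PermZero (bc C K) (uP (bc C K) a (tm C K 1 e) (u φ)) (Fin (2 * γ φ + 1)))
    {c : G} {η : Φ → ℤˣ} (hc : ∀ φ g, u φ (c⁻¹ * g) = ((η φ : ℤ) : K) * u φ g)
    {n : ℕ} (hn : ∑ φ, pairs (η φ) (γ φ) < n) {β : Fin n → C.A (X.prod X)}
    (hβ : ∀ j, InAlbKer C (β j))
    (hi : ∀ j g, C.pull (prodMap (a g) (a g)) (β j) = β j)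
    (hsp : ∀ j, C.pull (Obj.lift (snd X X) (fst X X ≫ a c)) (β j) = β j)
    (t : Fin n → (W ⟶ X.prod X)) :
    (Matrix.of fun i j => C.pull (t i) (β j)).det = 0 := by
  have : CharZero K := algebraRat.charZero K
  have hdeg : ∀ j, C.Deg 2 (β j) := by
    intro j
    have h1 := (hβ j).deg
    have h2 : (((X.prod X).dim : ℕ) : ℤ) = 2 := by rw [dim_prod, hd]; norm_num
    rwa [h2] at h1
  have key := sq_det (C := bc C K) (a := a) (e := tm C K 1 e) hu hd
    (bc_gr_mem C K hed 1) (bc_degOne K he1) ha (fun g => by rw [bc_pull_tm, he]) hk hc hn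
    (β := fun j => tm C K 1 (β j)) (fun j => bc_gr_mem C K (hdeg j) 1)
    (fun j => by rw [bc_mid, bc_comp, (albKer_fix hd hd hed hed (hβ j)).1])
    (fun j => by rw [bc_mid, bc_comp, (albKer_fix hd hd hed hed (hβ j)).2])
    (fun j g => by rw [bc_pull_tm, hi]) (fun j => by rw [bc_pull_tm, hsp]) t
  apply tm_inj K
  rw [tm_zero]
  rw [← key]
  let f : C.A W →+* (bc C K).A W :=
    { toFun := tm C K 1
      map_one' := tm_one C K
      map_mul' := fun a b => by rw [bc_mul_tm, one_mul]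
      map_zero' := tm_zero C K 1
      map_add' := fun a b => tm_add C K 1 a b }
  exact RingHom.map_det f _

/-- Quotients of squares. -/
theorem coveredSq {ι : Type} [Fintype ι] (X : ι → 𝒱.Obj) (G : ι → Type) [∀ i, Group (G i)]
    [∀ i, Fintype (G i)] [∀ i, DecidableEq (G i)] (a : ∀ i, G i → (X i ⟶ X i))
    (c : ∀ i, G i) (Φ : ι → Type) [∀ i, Fintype (Φ i)]
    (u : ∀ i, Φ i → G i → K) (γ : ∀ i, Φ i → ℕ) (η : ∀ i, Φ i → ℤˣ)
    (hu : ∀ i, IsSystem (u i)) (hX : ∀ i, IsCurveWithRanks C K (X i) (a i) (u i) (γ i))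
    (hc : ∀ i φ g, u i φ ((c i)⁻¹ * g) = ((η i φ : ℤ) : K) * u i φ g) {S : 𝒱.Obj}
    (hS : IsCoveredBySquares C a c S) {n : ℕ} (hn : ∑ i, ∑ φ, pairs (η i φ) (γ i φ) < n) :
    VoisinVanishing C S n := by
  classical
  intro α hα W s
  obtain ⟨b, hb⟩ := hS
  choose β hβ hβi hβs hβα using fun j => hb (α j) (hα j)
  have key := det_family (C := C) (W := W) (fun i => (X i).prod (X i))
    (fun i => ∑ φ, pairs (η i φ) (γ i φ)) hn b (fun i j => β j i) ?_ s
  · refine det_list α s ?_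
    rw [← key]
    congr 1
    funext r c
    rw [Matrix.of_apply, Matrix.of_apply, hβα c]
  · intro i m j hm W t
    obtain ⟨hd, h1, h2, e, hed, he1, he, hk⟩ := hX i
    exact sq_chow K (hu i) hd hed he1 ⟨h1, h2⟩ he
      (fun φ => permZero_of_rank K (a i) e (u i φ) (hk φ)) (hc i) hm
      (fun c => hβ (j c) i) (fun c g => hβi (j c) i g) (fun c => hβs (j c) i) t

end transfer

end Pool.Agent.K4H60.Voi
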